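import Pool.Agent.Work.MP_0d206b_gt.Et.Act

/-! MP_0d206b_gt: topology, line fields, contraction, coverings -/

/-! ### from Cocycle.lean -/

section

/-!
# A cocycle over a flow on a compact space which contracts pointwise contracts uniformly
-/

set_option autoImplicit false

open scoped Topology

namespace MP0d206b.Et

theorem cocycle_contraction {X : Type*} [TopologicalSpace X] [CompactSpace X] [Nonempty X]
    (φ : ℝ → X → X) (c : ℝ → X → ℝ) (hc : Continuous fun p : ℝ × X => c p.1 p.2)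
    (hpos : ∀ s x, 0 < c s x) (hcoc : ∀ s t x, c (s + t) x = c s (φ t x) * c t x)
    (hcontr : ∀ x, ∃ s > 0, c s x < 1) :
    ∃ C > 0, ∃ a > 0, ∀ x, ∀ s ≥ 0, c s x ≤ C * Real.exp (-a * s) := by
  classical
  choose τ hτ0 hτ using hcontr
  -- the constants
  have h1 : ∀ x, ∃ ρ, c (τ x) x < ρ ∧ ρ < 1 := fun x => exists_between (hτ x)
  choose ρ' hρ1 hρ2 using h1
  have hopen : ∀ x, IsOpen {y | c (τ x) y < ρ' x} := fun x =>
    isOpen_lt (hc.comp (continuous_const.prodMk continuous_id)) continuous_const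
  obtain ⟨F, hF⟩ := isCompact_univ.elim_finite_subcover (fun x => {y | c (τ x) y < ρ' x}) hopen
    (fun x _ => Set.mem_iUnion.2 ⟨x, hρ1 x⟩)
  have hFne : F.Nonempty := by
    obtain ⟨x0⟩ : Nonempty X := inferInstance
    have := hF (Set.mem_univ x0)
    simp only [Set.mem_iUnion] at this
    obtain ⟨i, hi, -⟩ := this
    exact ⟨i, hi⟩
  -- the extremal times and rates
  obtain ⟨iT, hiT, hT⟩ := F.exists_max_image τ hFne
  obtain ⟨iσ, hiσ, hσ⟩ := F.exists_min_image τ hFne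
  obtain ⟨iρ, hiρ, hρ⟩ := F.exists_max_image ρ' hFne
  set T := τ iT with hTdef
  set σ := τ iσ with hσdef
  set r := ρ' iρ with hrdef
  have hT0 : 0 < T := hτ0 _
  have hσ0 : 0 < σ := hτ0 _
  have hr1 : r < 1 := hρ2 _
  have hr0 : 0 < r := (hpos _ _).trans (hρ1 iρ)
  have step : ∀ x, ∃ t, σ ≤ t ∧ t ≤ T ∧ c t x ≤ r := by
    intro x
    have := hF (Set.mem_univ x)
    simp only [Set.mem_iUnion] at this
    obtain ⟨i, hi, hxi⟩ := this
    exact ⟨τ i, hσ i hi, hT i hi, (le_of_lt hxi).trans (hρ i hi)⟩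
  -- the bound on the compact time interval
  obtain ⟨K, hK⟩ : ∃ K, ∀ s ∈ Set.Icc (0 : ℝ) T, ∀ x, c s x ≤ K := by
    have hcomp : IsCompact (Set.Icc (0 : ℝ) T ×ˢ (Set.univ : Set X)) :=
      isCompact_Icc.prod isCompact_univ
    obtain ⟨K, hK⟩ := hcomp.bddAbove_image (f := fun p : ℝ × X => c p.1 p.2) hc.continuousOn
    refine ⟨K, fun s hs x => ?_⟩
    exact hK ⟨(s, x), ⟨hs, Set.mem_univ _⟩, rfl⟩
  have hK0 : 0 < K := by
    obtain ⟨x0⟩ : Nonempty X := inferInstance
    exact (hpos 0 x0).trans_le (hK 0 ⟨le_rfl, hT0.le⟩ x0)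
  -- the bound for all times
  have P0 : ∀ k : ℕ, ∀ s, 0 ≤ s → s ≤ T + k * σ → ∀ x, c s x ≤ K := by
    intro k
    induction k with
    | zero =>
      intro s hs hs' x
      exact hK s ⟨hs, by simpa using hs'⟩ x
    | succ k ih =>
      intro s hs hs' x
      rcases le_total s T with h | h
      · exact hK s ⟨hs, h⟩ x
      · obtain ⟨t, ht1, ht2, ht3⟩ := step x
        have h2 : c s x = c (s - t) (φ t x) * c t x := by
          rw [← hcoc, sub_add_cancel]
        rw [h2]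
        have h3 : c (s - t) (φ t x) ≤ K := by
          refine ih (s - t) (by linarith) ?_ _
          push_cast at hs'
          linarith
        calc c (s - t) (φ t x) * c t x ≤ K * 1 :=
              mul_le_mul h3 (ht3.trans hr1.le) (hpos _ _).le hK0.le
          _ = K := mul_one K
  have P0' : ∀ s, 0 ≤ s → ∀ x, c s x ≤ K := by
    intro s hs x
    obtain ⟨k, hk⟩ := exists_nat_ge ((s - T) / σ)
    refine P0 k s hs ?_ x
    rw [div_le_iff₀ hσ0] at hk
    linarith
  have P : ∀ n : ℕ, ∀ s, (n : ℝ) * T ≤ s → ∀ x, c s x ≤ K * r ^ n := by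
    intro n
    induction n with
    | zero =>
      intro s hs x
      simpa using P0' s (by simpa using hs) x
    | succ n ih =>
      intro s hs x
      obtain ⟨t, ht1, ht2, ht3⟩ := step x
      have h2 : c s x = c (s - t) (φ t x) * c t x := by
        rw [← hcoc, sub_add_cancel]
      rw [h2, pow_succ, ← mul_assoc]
      refine mul_le_mul (ih (s - t) ?_ _) ht3 (hpos _ _).le (by positivity)
      push_cast at hs
      linarith
  -- conclusion
  refine ⟨K / r, by positivity, -Real.log r / T, ?_, ?_⟩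
  · have := Real.log_neg hr0 hr1
    exact div_pos (by linarith) hT0
  · intro x s hs
    have h3 : (⌊s / T⌋₊ : ℝ) * T ≤ s := by
      have := Nat.floor_le (div_nonneg hs hT0.le)
      rwa [le_div_iff₀ hT0] at this
    refine (P _ s h3 x).trans ?_
    have h4 : s / T - 1 ≤ (⌊s / T⌋₊ : ℝ) := (Nat.sub_one_lt_floor _).le
    have h5 : r ^ ⌊s / T⌋₊ ≤ r⁻¹ * Real.exp (-(-Real.log r / T) * s) := by
      have h6 : r ^ ⌊s / T⌋₊ = Real.exp (Real.log r * (⌊s / T⌋₊ : ℝ)) := by
        rw [Real.exp_mul, Real.exp_log hr0, Real.rpow_natCast]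
      have h7 : r⁻¹ = Real.exp (-Real.log r) := by
        rw [Real.exp_neg, Real.exp_log hr0]
      rw [h6, h7, ← Real.exp_add, Real.exp_le_exp]
      have h8 := mul_le_mul_of_nonpos_left h4 (Real.log_neg hr0 hr1).le
      have h9 : Real.log r * (s / T - 1) = -Real.log r + -(-Real.log r / T) * s := by
        field_simp
        ring
      linarith
    calc K * r ^ ⌊s / T⌋₊ ≤ K * (r⁻¹ * Real.exp (-(-Real.log r / T) * s)) :=
          mul_le_mul_of_nonneg_left h5 hK0.le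
      _ = K / r * Real.exp (-(-Real.log r / T) * s) := by
          rw [← mul_assoc, div_eq_mul_inv K r]

end MP0d206b.Et

end

/-! ### from Metric.lean -/

section

/-!
# A Riemannian metric on a compact manifold, pulled back from a Euclidean space
-/

set_option autoImplicit false

open scoped Manifold ContDiff Topology
open Bundle

set_option linter.unusedSectionVars false

namespace MP0d206b.Et

variable {E : Type} [NormedAddCommGroup E] [NormedSpace ℝ E] [FiniteDimensional ℝ E]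
  {M : Type} [TopologicalSpace M] [ChartedSpace E M] [IsManifold 𝓘(ℝ, E) ∞ M]

/-- the pulled back scalar product -/
noncomputable def pullInner {n : ℕ} (e : M → EuclideanSpace ℝ (Fin n)) (b : M) :
    TangentSpace 𝓘(ℝ, E) b →L[ℝ] TangentSpace 𝓘(ℝ, E) b →L[ℝ] ℝ :=
  (ContinuousLinearMap.bilinearComp (innerSL ℝ)
    (mfderiv 𝓘(ℝ, E) 𝓘(ℝ, EuclideanSpace ℝ (Fin n)) e b : E →L[ℝ] EuclideanSpace ℝ (Fin n))
    (mfderiv 𝓘(ℝ, E) 𝓘(ℝ, EuclideanSpace ℝ (Fin n)) e b : E →L[ℝ] EuclideanSpace ℝ (Fin n)) :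
    E →L[ℝ] E →L[ℝ] ℝ)

theorem pullInner_apply {n : ℕ} (e : M → EuclideanSpace ℝ (Fin n)) (b : M)
    (v w : TangentSpace 𝓘(ℝ, E) b) :
    pullInner e b v w = inner ℝ (mfderiv 𝓘(ℝ, E) 𝓘(ℝ, EuclideanSpace ℝ (Fin n)) e b v :
      EuclideanSpace ℝ (Fin n)) (mfderiv 𝓘(ℝ, E) 𝓘(ℝ, EuclideanSpace ℝ (Fin n)) e b w :
      EuclideanSpace ℝ (Fin n)) := rfl

theorem contMDiff_pullInner {n : ℕ} {e : M → EuclideanSpace ℝ (Fin n)}
    (he : ContMDiff 𝓘(ℝ, E) 𝓘(ℝ, EuclideanSpace ℝ (Fin n)) ∞ e) :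
    ContMDiff 𝓘(ℝ, E) (𝓘(ℝ, E).prod 𝓘(ℝ, E →L[ℝ] E →L[ℝ] ℝ)) ∞
      (fun b : M ↦ TotalSpace.mk' (E →L[ℝ] E →L[ℝ] ℝ)
        (E := fun b : M => TangentSpace 𝓘(ℝ, E) b →L[ℝ] TangentSpace 𝓘(ℝ, E) b →L[ℝ]
          Bundle.Trivial M ℝ b) b (pullInner e b)) := by
  intro x₀
  rw [contMDiffAt_section]
  have h1 : ContMDiffAt 𝓘(ℝ, E) 𝓘(ℝ, E →L[ℝ] EuclideanSpace ℝ (Fin n)) ∞
      (inTangentCoordinates 𝓘(ℝ, E) 𝓘(ℝ, EuclideanSpace ℝ (Fin n)) id e
        (mfderiv 𝓘(ℝ, E) 𝓘(ℝ, EuclideanSpace ℝ (Fin n)) e) x₀) x₀ :=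
    ContMDiffAt.mfderiv_const he.contMDiffAt (by simp)
  set A := inTangentCoordinates 𝓘(ℝ, E) 𝓘(ℝ, EuclideanSpace ℝ (Fin n)) id e
        (mfderiv 𝓘(ℝ, E) 𝓘(ℝ, EuclideanSpace ℝ (Fin n)) e) x₀ with hA
  have h2 : ContDiff ℝ ∞ (fun L : E →L[ℝ] EuclideanSpace ℝ (Fin n) =>
      (ContinuousLinearMap.bilinearComp (innerSL ℝ) L L : E →L[ℝ] E →L[ℝ] ℝ)) := by
    rw [contDiff_clm_apply_iff]
    intro v
    rw [contDiff_clm_apply_iff]
    intro w
    have h5 : ContDiff ℝ ∞ (fun L : E →L[ℝ] EuclideanSpace ℝ (Fin n) => inner ℝ (L v) (L w)) :=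
      (contDiff_id.clm_apply contDiff_const).inner ℝ (contDiff_id.clm_apply contDiff_const)
    exact h5
  have h3 : ContMDiffAt 𝓘(ℝ, E) 𝓘(ℝ, E →L[ℝ] E →L[ℝ] ℝ) ∞
      (fun b => (ContinuousLinearMap.bilinearComp (innerSL ℝ) (A b) (A b) :
        E →L[ℝ] E →L[ℝ] ℝ)) x₀ :=
    h2.contMDiff.contMDiffAt.comp x₀ h1
  refine h3.congr_of_eventuallyEq ?_
  have h4 : ∀ᶠ b in 𝓝 x₀, b ∈ (trivializationAt E (TangentSpace 𝓘(ℝ, E)) x₀).baseSet :=
    (trivializationAt E (TangentSpace 𝓘(ℝ, E)) x₀).open_baseSet.mem_nhds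
      (FiberBundle.mem_baseSet_trivializationAt' x₀)
  filter_upwards [h4] with b hb
  ext v w
  rw [hom_trivializationAt_apply]
  erw [inCoordinates_apply_eq₂ hb hb (Set.mem_univ _)]
  have h6 : ∀ u : E, A b u = (mfderiv 𝓘(ℝ, E) 𝓘(ℝ, EuclideanSpace ℝ (Fin n)) e b
      ((trivializationAt E (TangentSpace 𝓘(ℝ, E)) x₀).symm b u) : EuclideanSpace ℝ (Fin n)) := by
    intro u
    have h8 := TangentBundle.continuousLinearMapAt_model_space (𝕜 := ℝ)
      (F := EuclideanSpace ℝ (Fin n)) (e x₀) (e b)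
    have h9 : A b u = (trivializationAt (EuclideanSpace ℝ (Fin n))
        (TangentSpace 𝓘(ℝ, EuclideanSpace ℝ (Fin n))) (e x₀)).continuousLinearMapAt ℝ (e b)
        (mfderiv 𝓘(ℝ, E) 𝓘(ℝ, EuclideanSpace ℝ (Fin n)) e b
        ((trivializationAt E (TangentSpace 𝓘(ℝ, E)) x₀).symmL ℝ b u)) := by
      rw [hA]
      unfold inTangentCoordinates ContinuousLinearMap.inCoordinates
      rfl
    rw [h9, h8, Trivialization.symmL_apply _ hb]
    rfl
  have h10 : (ContinuousLinearMap.bilinearComp (innerSL ℝ) (A b) (A b) :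
      E →L[ℝ] E →L[ℝ] ℝ) v w = inner ℝ (A b v) (A b w) := rfl
  rw [h10, h6, h6]
  have h11 : ∀ r : ℝ, (trivializationAt ℝ (Bundle.Trivial M ℝ) x₀).linearMapAt ℝ b r = r := by
    intro r
    simp
  exact h11 _

theorem isVonNBounded_of_injective {n : ℕ} (L : E →L[ℝ] EuclideanSpace ℝ (Fin n))
    (hL : Function.Injective L) :
    Bornology.IsVonNBounded ℝ {v : E | inner ℝ (L v) (L v) < (1 : ℝ)} := by
  have h1 : ∃ K > 0, AntilipschitzWith K (L : E →ₗ[ℝ] EuclideanSpace ℝ (Fin n)) :=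
    LinearMap.exists_antilipschitzWith _ (LinearMap.ker_eq_bot.2 hL)
  obtain ⟨K, hK0, hK⟩ := h1
  have h2 : Bornology.IsVonNBounded ℝ (Metric.ball (0 : E) (K + 1)) :=
    NormedSpace.isVonNBounded_ball ℝ E _
  refine h2.subset ?_
  intro v hv
  have h4 : ‖L v‖ ^ 2 < 1 := by
    rw [← real_inner_self_eq_norm_sq]
    exact hv
  have h5 : ‖L v‖ < 1 := by
    by_contra hcon
    push Not at hcon
    nlinarith
  have h6 : ‖v‖ ≤ K * ‖L v‖ := by
    have := hK.le_mul_dist v 0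
    rw [dist_zero_right, map_zero, dist_zero_right] at this
    exact this
  rw [mem_ball_zero_iff]
  have h7 : (K : ℝ) * ‖L v‖ ≤ K * 1 := mul_le_mul_of_nonneg_left h5.le K.2
  linarith

/-- the Riemannian metric pulled back by an immersion in a Euclidean space -/
noncomputable def pullMetric {n : ℕ} {e : M → EuclideanSpace ℝ (Fin n)}
    (he : ContMDiff 𝓘(ℝ, E) 𝓘(ℝ, EuclideanSpace ℝ (Fin n)) ∞ e)
    (hinj : ∀ x, Function.Injective (mfderiv 𝓘(ℝ, E) 𝓘(ℝ, EuclideanSpace ℝ (Fin n)) e x)) :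
    ContMDiffRiemannianMetric 𝓘(ℝ, E) ∞ E (fun x : M => TangentSpace 𝓘(ℝ, E) x) where
  inner := pullInner e
  symm b v w := by
    rw [pullInner_apply, pullInner_apply, real_inner_comm]
  pos b v hv := by
    rw [pullInner_apply]
    rw [real_inner_self_eq_norm_sq]
    have h1 : (mfderiv 𝓘(ℝ, E) 𝓘(ℝ, EuclideanSpace ℝ (Fin n)) e b v :
      EuclideanSpace ℝ (Fin n)) ≠ 0 := by
      intro h
      apply hv
      apply hinj b
      rw [map_zero]
      exact h
    have h2 := norm_pos_iff.2 h1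
    positivity
  isVonNBounded b := by
    exact isVonNBounded_of_injective (E := E)
      (mfderiv 𝓘(ℝ, E) 𝓘(ℝ, EuclideanSpace ℝ (Fin n)) e b) (hinj b)
  contMDiff := contMDiff_pullInner he

/-- every compact smooth manifold has a Riemannian metric, pulled back from a Euclidean space -/
theorem exists_metric [T2Space M] [CompactSpace M] :
    ∃ (n : ℕ) (e : M → EuclideanSpace ℝ (Fin n))
      (g : ContMDiffRiemannianMetric 𝓘(ℝ, E) ∞ E (fun x : M => TangentSpace 𝓘(ℝ, E) x)),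
      ContMDiff 𝓘(ℝ, E) 𝓘(ℝ, EuclideanSpace ℝ (Fin n)) ∞ e ∧
      (∀ x, Function.Injective (mfderiv 𝓘(ℝ, E) 𝓘(ℝ, EuclideanSpace ℝ (Fin n)) e x)) ∧
      ∀ (x : M) (v w : TangentSpace 𝓘(ℝ, E) x), g.inner x v w = inner ℝ
        (mfderiv 𝓘(ℝ, E) 𝓘(ℝ, EuclideanSpace ℝ (Fin n)) e x v : EuclideanSpace ℝ (Fin n))
        (mfderiv 𝓘(ℝ, E) 𝓘(ℝ, EuclideanSpace ℝ (Fin n)) e x w : EuclideanSpace ℝ (Fin n)) := by
  obtain ⟨n, e, he, -, hinj⟩ := exists_embedding_euclidean_of_compact (I := 𝓘(ℝ, E)) (M := M)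
  exact ⟨n, e, pullMetric he hinj, he, hinj, fun x v w => rfl⟩

end MP0d206b.Et

end

/-! ### from CovLem.lean -/

section

/-!
# MP_0d206b_gt, module G: lemmas on coverings

G4: a lift of a covering through a covering is a covering.  G5: a connected covering space of a second countable
locally connected space is second countable.
-/

set_option autoImplicit false

open Set Filter Topology

namespace Pool.Agent.Work.MP_0d206b_gt

theorem isCoveringMap_lift {N X' X : Type*} [TopologicalSpace N] [TopologicalSpace X'] [TopologicalSpace X]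
    [LocallyConnectedSpace X] {q : X' → X} (hq : IsCoveringMap q) {p' : N → X'} (hc : Continuous p')
    (hp : IsCoveringMap (fun b => q (p' b))) : IsCoveringMap p' := by
  intro y
  obtain ⟨dq, U, hxU, hU, hqU, Hq, hHq⟩ := hq (q y)
  obtain ⟨dp, U', hxU', hU', hpU', Hp, hHp⟩ := hp (q y)
  obtain ⟨W, hWU, hW, hxW, hWc⟩ := locallyConnectedSpace_iff_subsets_isOpen_isConnected.1 ‹_› (q y) (U ∩ U')
    ((hU.inter hU').mem_nhds ⟨hxU, hxU'⟩)
  have wU : ∀ {w}, w ∈ W → w ∈ U := fun h => (hWU h).1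
  have wU' : ∀ {w}, w ∈ W → w ∈ U' := fun h => (hWU h).2
  have hb : ∀ (u : U') f, q (p' (Hp.symm (u, f)).1) = u.1 := by
    intro u f
    have := hHp (Hp.symm (u, f))
    rw [Homeomorph.apply_symm_apply] at this
    exact this.symm
  let a : W → (fun b => q (p' b)) ⁻¹' {q y} → q ⁻¹' {q y} := fun w f =>
    (Hq ⟨p' (Hp.symm (⟨w.1, wU' w.2⟩, f)).1, by
      show q (p' (Hp.symm (⟨w.1, wU' w.2⟩, f)).1) ∈ U
      rw [hb]; exact wU w.2⟩).2
  have ac : ∀ f, Continuous fun w => a w f := by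
    intro f
    refine continuous_snd.comp (Hq.continuous.comp ?_)
    refine Continuous.subtype_mk (hc.comp (continuous_subtype_val.comp (Hp.symm.continuous.comp ?_))) _
    exact (Continuous.subtype_mk continuous_subtype_val _).prodMk continuous_const
  have : ConnectedSpace W := isConnected_iff_connectedSpace.1 hWc
  have aconst : ∀ f w w', a w f = a w' f := fun f w w' =>
    PreconnectedSpace.constant inferInstance (ac f)
  have akey : ∀ (b : N) (h : q (p' b) ∈ W), (Hq ⟨p' b, wU h⟩).2 = a ⟨q y, hxW⟩ (Hp ⟨b, wU' h⟩).2 := by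
    intro b h
    rw [aconst _ _ ⟨q (p' b), h⟩]
    have e : Hp.symm (⟨q (p' b), wU' h⟩, (Hp ⟨b, wU' h⟩).2) = ⟨b, wU' h⟩ := by
      rw [Homeomorph.symm_apply_eq]
      refine Prod.ext (Subtype.ext ?_) rfl
      exact (hHp ⟨b, wU' h⟩).symm
    simp only [a]
    congr 2
    exact Subtype.ext (congrArg p' (congrArg Subtype.val e)).symm
  let κ := a ⟨q y, hxW⟩
  let κ0 := (Hq ⟨y, hxU⟩).2
  let V : Set X' := {y' | ∃ h : q y' ∈ W, (Hq ⟨y', wU h⟩).2 = κ0}
  have hyV : y ∈ V := ⟨hxW, rfl⟩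
  have hV : IsOpen V := by
    have : V = Subtype.val '' {z : q ⁻¹' U | q z.1 ∈ W ∧ (Hq z).2 = κ0} := by
      ext y'
      constructor
      · rintro ⟨h, h'⟩
        exact ⟨⟨y', wU h⟩, ⟨h, h'⟩, rfl⟩
      · rintro ⟨z, ⟨h, h'⟩, rfl⟩
        exact ⟨h, h'⟩
    rw [this]
    refine hqU.isOpenMap_subtype_val _ (IsOpen.inter ?_ ?_)
    · exact hW.preimage (hq.continuous.comp continuous_subtype_val)
    · exact (isOpen_discrete {κ0}).preimage (continuous_snd.comp Hq.continuous)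
  have inV : ∀ {b : N}, p' b ∈ V → q (p' b) ∈ W := fun h => h.1
  have inκ : ∀ {b : N} (h : p' b ∈ V), κ (Hp ⟨b, wU' (inV h)⟩).2 = κ0 := by
    intro b h
    obtain ⟨h1, h2⟩ := h
    exact (akey b h1).symm.trans h2
  have bV : ∀ {y' : X'} (hy' : y' ∈ V) (f : {f // κ f = κ0}), p' (Hp.symm (⟨q y', wU' hy'.1⟩, f.1)).1 = y' := by
    rintro y' ⟨h1, h2⟩ f
    have e1 := hb ⟨q y', wU' h1⟩ f.1
    have h3 : q (p' (Hp.symm (⟨q y', wU' h1⟩, f.1)).1) ∈ W := by rw [e1]; exact h1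
    have e2 := akey (Hp.symm (⟨q y', wU' h1⟩, f.1)).1 h3
    have e3 : (Hp ⟨(Hp.symm (⟨q y', wU' h1⟩, f.1)).1, wU' h3⟩).2 = f.1 := by
      show (Hp (Hp.symm (⟨q y', wU' h1⟩, f.1))).2 = f.1
      rw [Homeomorph.apply_symm_apply]
    rw [e3] at e2
    have : (⟨p' (Hp.symm (⟨q y', wU' h1⟩, f.1)).1, wU h3⟩ : q ⁻¹' U) = ⟨y', wU h1⟩ := by
      apply Hq.injective
      refine Prod.ext (Subtype.ext ?_) ?_
      · rw [hHq, hHq]; exact e1
      · rw [e2, h2]; exact f.2
    exact congrArg Subtype.val this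
  refine IsEvenlyCovered.to_isEvenlyCovered_preimage (I := {f // κ f = κ0})
    ⟨inferInstance, V, hyV, hV, hV.preimage hc,
      { toFun := fun b => (⟨p' b.1, b.2⟩, ⟨(Hp ⟨b.1, wU' (inV b.2)⟩).2, inκ b.2⟩)
        invFun := fun v => ⟨(Hp.symm (⟨q v.1.1, wU' v.1.2.1⟩, v.2.1)).1, by
          show p' _ ∈ V
          rw [bV v.1.2 v.2]; exact v.1.2⟩
        left_inv := ?_
        right_inv := ?_
        continuous_toFun := ?_
        continuous_invFun := ?_ }, fun b => rfl⟩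
  · intro b
    refine Subtype.ext ?_
    have e : Hp.symm (⟨q (p' b.1), wU' (inV b.2)⟩, (Hp ⟨b.1, wU' (inV b.2)⟩).2) = ⟨b.1, wU' (inV b.2)⟩ := by
      rw [Homeomorph.symm_apply_eq]
      refine Prod.ext (Subtype.ext ?_) rfl
      exact (hHp ⟨b.1, wU' (inV b.2)⟩).symm
    exact congrArg (fun z => z.1) e
  · rintro ⟨v, f⟩
    refine Prod.ext (Subtype.ext (bV v.2 f)) (Subtype.ext ?_)
    show (Hp (Hp.symm (⟨q v.1, wU' v.2.1⟩, f.1))).2 = f.1
    rw [Homeomorph.apply_symm_apply]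
  · refine Continuous.prodMk (Continuous.subtype_mk (hc.comp continuous_subtype_val) _)
      (Continuous.subtype_mk (continuous_snd.comp (Hp.continuous.comp
        (Continuous.subtype_mk continuous_subtype_val _))) _)
  · refine Continuous.subtype_mk (continuous_subtype_val.comp (Hp.symm.continuous.comp ?_)) _
    exact (Continuous.subtype_mk (hq.continuous.comp (continuous_subtype_val.comp continuous_fst)) _).prodMk
      (continuous_subtype_val.comp continuous_snd)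

theorem locallyPathConnectedSpace_of_localHomeo {N X : Type*} [TopologicalSpace N] [TopologicalSpace X]
    [LocallyPathConnectedSpace X] {p : N → X} (hp : IsLocalHomeomorph p) : LocallyPathConnectedSpace N := by
  let : ChartedSpace X N :=
    { atlas := univ
      chartAt := fun x => (hp x).choose
      mem_chart_source := fun x => (hp x).choose_spec.1
      chart_mem_atlas := fun _ => mem_univ _ }
  exact ChartedSpace.locallyPathConnectedSpace X N

theorem t2Space_of_covering {N X : Type*} [TopologicalSpace N] [TopologicalSpace X] [T2Space X] {p : N → X}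
    (hp : IsCoveringMap p) : T2Space N := by
  refine ⟨fun x y hxy => ?_⟩
  by_cases h : p x = p y
  · exact hp.isSeparatedMap x y h hxy
  · obtain ⟨u, v, hu, hv, hxu, hyv, huv⟩ := t2_separation h
    exact ⟨p ⁻¹' u, p ⁻¹' v, hu.preimage hp.continuous, hv.preimage hp.continuous, hxu, hyv,
      huv.preimage p⟩

/-- a connected set which lies over an evenly covered set is mapped injectively -/
theorem injOn_of_evenly {N X I : Type*} [TopologicalSpace N] [TopologicalSpace X] [TopologicalSpace I]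
    [DiscreteTopology I] {p : N → X} {U : Set X} (H : p ⁻¹' U ≃ₜ U × I) (hH : ∀ x, (H x).1.1 = p x) {C : Set N}
    (hC : IsPreconnected C) (hCU : C ⊆ p ⁻¹' U) : InjOn p C := by
  intro x hx y hy hxy
  have : PreconnectedSpace C := Subtype.preconnectedSpace hC
  have hc : Continuous fun z : C => (H ⟨z.1, hCU z.2⟩).2 :=
    continuous_snd.comp (H.continuous.comp (Continuous.subtype_mk continuous_subtype_val _))
  have e : (H ⟨x, hCU hx⟩).2 = (H ⟨y, hCU hy⟩).2 :=
    PreconnectedSpace.constant (Y := I) ‹_› hc (x := ⟨x, hx⟩) (y := ⟨y, hy⟩)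
  have := H.injective (Prod.ext (Subtype.ext (by rw [hH, hH]; exact hxy)) e)
  exact congrArg Subtype.val this

/-- Poincaré-Volterra for coverings -/
theorem secondCountable_of_covering {N X : Type*} [TopologicalSpace N] [TopologicalSpace X]
    [SecondCountableTopology X] [ConnectedSpace N] [LocallyConnectedSpace N] {p : N → X} (hp : IsCoveringMap p) :
    SecondCountableTopology N := by
  classical
  let 𝓑 := TopologicalSpace.countableBasis X
  have h𝓑 : TopologicalSpace.IsTopologicalBasis 𝓑 := TopologicalSpace.isBasis_countableBasis X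
  let 𝓤 : Set X → Set (Set N) := fun B => {C | ∃ x ∈ p ⁻¹' B, C = connectedComponentIn (p ⁻¹' B) x ∧ InjOn p C}
  have open𝓤 : ∀ B ∈ 𝓑, ∀ C ∈ 𝓤 B, IsOpen C := by
    rintro B hB C ⟨x, hx, rfl, -⟩
    exact ((h𝓑.isOpen hB).preimage hp.continuous).connectedComponentIn
  have ne𝓤 : ∀ B, ∀ C ∈ 𝓤 B, C.Nonempty := by
    rintro B C ⟨x, hx, rfl, -⟩
    exact ⟨x, mem_connectedComponentIn hx⟩
  have disj𝓤 : ∀ B, (𝓤 B).PairwiseDisjoint id := by
    rintro B C ⟨x, hx, rfl, -⟩ C' ⟨x', hx', rfl, -⟩ hne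
    rw [Function.onFun, id, id, Set.disjoint_iff_inter_eq_empty]
    by_contra hi
    obtain ⟨z, hz, hz'⟩ := nonempty_iff_ne_empty.2 hi
    exact hne ((connectedComponentIn_eq hz).trans (connectedComponentIn_eq hz').symm)
  have sc𝓤 : ∀ B ∈ 𝓑, ∀ C ∈ 𝓤 B, SecondCountableTopology C := by
    intro B hB C hC
    have hopen := open𝓤 B hB C hC
    obtain ⟨x, hx, rfl, hinj⟩ := hC
    have hl : IsLocalHomeomorph (fun z : connectedComponentIn (p ⁻¹' B) x => p z.1) :=
      hp.isLocalHomeomorph.comp hopen.isOpenEmbedding_subtypeVal.isLocalHomeomorph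
    exact (hl.isOpenEmbedding_of_injective fun a b hab =>
      Subtype.ext (hinj a.2 b.2 hab)).isInducing.secondCountableTopology
  have cov𝓤 : ∀ x : N, ∃ B ∈ 𝓑, ∃ C ∈ 𝓤 B, x ∈ C := by
    intro x
    obtain ⟨di, U, hxU, hU, hpU, H, hH⟩ := hp (p x)
    obtain ⟨B, hB, hxB, hBU⟩ := h𝓑.exists_subset_of_mem_open hxU hU
    exact ⟨B, hB, _, ⟨x, hxB, rfl, injOn_of_evenly H hH isPreconnected_connectedComponentIn
      ((connectedComponentIn_subset _ _).trans (preimage_mono hBU))⟩, mem_connectedComponentIn hxB⟩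
  -- the neighbours of `C`
  have nb : ∀ B ∈ 𝓑, ∀ C ∈ 𝓤 B, ∀ B' ∈ 𝓑, {C' ∈ 𝓤 B' | (C ∩ C').Nonempty}.Countable := by
    intro B hB C hC B' hB'
    have := sc𝓤 B hB C hC
    refine Set.PairwiseDisjoint.countable_of_isOpen (α := C) (s := fun C' : Set N => Subtype.val ⁻¹' C') ?_ ?_ ?_
    · intro C₁ h₁ C₂ h₂ hne
      exact (disj𝓤 B' h₁.1 h₂.1 hne).preimage _
    · intro C' h'
      exact (open𝓤 B' hB' C' h'.1).preimage continuous_subtype_val
    · rintro C' ⟨-, z, hz, hz'⟩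
      exact ⟨⟨z, hz⟩, hz'⟩
  let 𝓥 : Set (Set N) := ⋃ B ∈ 𝓑, 𝓤 B
  have mem𝓥 : ∀ {C}, C ∈ 𝓥 ↔ ∃ B ∈ 𝓑, C ∈ 𝓤 B := by
    intro C; simp [𝓥]
  let step : Set (Set N) → Set (Set N) := fun S => {C' ∈ 𝓥 | ∃ C ∈ S, (C ∩ C').Nonempty}
  have step_count : ∀ S ⊆ 𝓥, S.Countable → (step S).Countable := by
    intro S hS hc
    have : step S ⊆ ⋃ C ∈ S, ⋃ B' ∈ 𝓑, {C' ∈ 𝓤 B' | (C ∩ C').Nonempty} := by
      rintro C' ⟨h1, C, hC, h2⟩
      obtain ⟨B', hB', h3⟩ := mem𝓥.1 h1
      simp only [mem_iUnion]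
      exact ⟨C, hC, B', hB', h3, h2⟩
    refine Set.Countable.mono this (hc.biUnion fun C hC => ?_)
    obtain ⟨B, hB, hCB⟩ := mem𝓥.1 (hS hC)
    exact (TopologicalSpace.countable_countableBasis X).biUnion fun B' hB' => nb B hB C hCB B' hB'
  let x₀ : N := Classical.choice inferInstance
  obtain ⟨B₀, hB₀, C₀, hC₀, hx₀⟩ := cov𝓤 x₀
  let S : ℕ → Set (Set N) := fun n => step^[n] {C₀}
  have S_succ : ∀ n, S (n + 1) = step (S n) := fun n => Function.iterate_succ_apply' step n {C₀}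
  have S_sub : ∀ n, S n ⊆ 𝓥 := by
    intro n
    cases n with
    | zero => intro C hC; rw [show C = C₀ from hC]; exact mem𝓥.2 ⟨B₀, hB₀, hC₀⟩
    | succ n => rw [S_succ]; exact fun C hC => hC.1
  have S_count : ∀ n, (S n).Countable := by
    intro n
    induction n with
    | zero => exact countable_singleton _
    | succ n ih => rw [S_succ]; exact step_count _ (S_sub n) ih
  let T : Set (Set N) := ⋃ n, S n
  have T_count : T.Countable := countable_iUnion S_count
  have T_sub : T ⊆ 𝓥 := iUnion_subset S_sub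
  have T_open : ∀ C ∈ T, IsOpen C := by
    intro C hC
    obtain ⟨B, hB, hCB⟩ := mem𝓥.1 (T_sub hC)
    exact open𝓤 B hB C hCB
  have hO : IsOpen (⋃₀ T) := isOpen_sUnion T_open
  have hOc : IsOpen (⋃₀ T)ᶜ := by
    rw [isOpen_iff_mem_nhds]
    intro x hx
    obtain ⟨B, hB, C, hC, hxC⟩ := cov𝓤 x
    refine mem_of_superset ((open𝓤 B hB C hC).mem_nhds hxC) fun y hy hy' => hx ?_
    obtain ⟨C', hC', hyC'⟩ := hy'
    obtain ⟨n, hn⟩ := mem_iUnion.1 hC'
    have : C ∈ S (n + 1) := by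
      rw [S_succ]
      exact ⟨mem𝓥.2 ⟨B, hB, hC⟩, C', hn, y, hyC', hy⟩
    exact ⟨C, mem_iUnion.2 ⟨_, this⟩, hxC⟩
  have huniv : ⋃₀ T = univ := by
    refine IsClopen.eq_univ ⟨⟨hOc⟩, hO⟩ ⟨x₀, C₀, mem_iUnion.2 ⟨0, rfl⟩, hx₀⟩
  have : Countable T := T_count.to_subtype
  have : ∀ C : T, SecondCountableTopology (C : Set N) := by
    intro C
    obtain ⟨B, hB, hCB⟩ := mem𝓥.1 (T_sub C.2)
    exact sc𝓤 B hB C hCB
  refine TopologicalSpace.secondCountableTopology_of_countable_cover (U := fun C : T => (C : Set N))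
    (fun C => T_open C C.2) ?_
  rw [← huniv, sUnion_eq_iUnion]

end Pool.Agent.Work.MP_0d206b_gt

end

/-! ### from Topo.lean -/

section

/-!
# Etale quotients: Hausdorff, compact, connected
-/

set_option autoImplicit false
set_option linter.unusedSectionVars false

open scoped Manifold ContDiff Topology
open Filter

namespace MP0d206b.Et

variable {ι : Type} {E : Type} [NormedAddCommGroup E] [NormedSpace ℝ E] (G : Glue ι E)

/-- the relation is sequentially closed -/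
def Glue.SeqClosed : Prop :=
  ∀ (i j : ι) (e e' : E) (x y : ℕ → E), e ∈ G.D i → e' ∈ G.D j → Tendsto x atTop (𝓝 e) →
    Tendsto y atTop (𝓝 e') → (∀ n, G.R i (x n) j (y n)) → G.R i e j e'

section Top

variable [TopologicalSpace ι] [DiscreteTopology ι]

/-- a sequence in the disjoint union converges iff the index is eventually constant and the coordinates
converge -/
theorem Glue.tendsto_U {u : ℕ → G.U} {p : G.U} (h : Tendsto u atTop (𝓝 p)) :
    (∀ᶠ n in atTop, (u n).1.1 = p.1.1) ∧ Tendsto (fun n => (u n).1.2) atTop (𝓝 p.1.2) := by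
  have h1 : Tendsto (fun n => (u n).1) atTop (𝓝 p.1) := by
    have : Continuous (fun q : G.U => q.1) := continuous_subtype_val
    exact (this.tendsto p).comp h
  have h2 : Tendsto (fun n => (u n).1.1) atTop (𝓝 p.1.1) := (continuous_fst.tendsto _).comp h1
  have h3 : Tendsto (fun n => (u n).1.2) atTop (𝓝 p.1.2) := (continuous_snd.tendsto _).comp h1
  refine ⟨?_, h3⟩
  rw [nhds_discrete] at h2
  exact tendsto_pure.1 h2

theorem Glue.t2Space (h : G.SeqClosed) : T2Space G.Q := by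
  rw [t2Space_iff_of_isOpenQuotientMap G.isOpenQuotientMap_proj]
  have h0 : FirstCountableTopology G.U := by
    have h01 : FirstCountableTopology ι := by
      constructor
      intro a
      rw [nhds_discrete]
      infer_instance
    exact TopologicalSpace.Subtype.firstCountableTopology {p : ι × E | p.2 ∈ G.D p.1}
  refine IsSeqClosed.isClosed ?_
  intro w p hw hp
  have h1 : Tendsto (fun n => (w n).1) atTop (𝓝 p.1) := (continuous_fst.tendsto _).comp hp
  have h2 : Tendsto (fun n => (w n).2) atTop (𝓝 p.2) := (continuous_snd.tendsto _).comp hp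
  obtain ⟨h3, h4⟩ := G.tendsto_U h1
  obtain ⟨h5, h6⟩ := G.tendsto_U h2
  obtain ⟨N, hN⟩ := (h3.and h5).exists_forall_of_atTop
  have h7 : G.R p.1.1.1 p.1.1.2 p.2.1.1 p.2.1.2 := by
    refine h _ _ _ _ (fun n => (w (n + N)).1.1.2) (fun n => (w (n + N)).2.1.2) p.1.2 p.2.2
      (h4.comp (tendsto_add_atTop_nat N)) (h6.comp (tendsto_add_atTop_nat N)) ?_
    intro n
    have h8 := G.proj_eq_iff.1 (hw (n + N))
    obtain ⟨h9, h10⟩ := hN (n + N) (by omega)
    rw [h9, h10] at h8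
    exact h8
  exact G.proj_eq_iff.2 h7

/-- compactness from a compact set which meets all classes -/
theorem Glue.compactSpace (s : Finset ι) (K : ι → Set E) (hK : ∀ i ∈ s, IsCompact (K i))
    (hKD : ∀ i ∈ s, K i ⊆ G.D i)
    (hcov : ∀ i, ∀ x ∈ G.D i, ∃ j ∈ s, ∃ y ∈ K j, G.R i x j y) : CompactSpace G.Q := by
  rcases isEmpty_or_nonempty G.Q with he | hne
  · infer_instance
  constructor
  have h1 : (Set.univ : Set G.Q) = ⋃ i ∈ s, G.par i '' (K i) := by
    ext q
    simp only [Set.mem_univ, Set.mem_iUnion, true_iff]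
    obtain ⟨i, x, hx, rfl⟩ := G.exists_par q
    obtain ⟨j, hj, y, hy, hR⟩ := hcov i x hx
    exact ⟨j, hj, y, hy, ((G.par_eq_iff hx (hKD j hj hy)).2 hR).symm⟩
  rw [h1]
  exact s.isCompact_biUnion fun i hi =>
    (hK i hi).image_of_continuousOn ((G.continuousOn_par i).mono (hKD i hi))

theorem Glue.preconnectedSpace (hconn : ∀ i, IsPreconnected (G.D i))
    (hchain : ∀ i j, Relation.ReflTransGen (fun i j => ∃ x ∈ G.D i, ∃ y ∈ G.D j, G.R i x j y) i j) :
    PreconnectedSpace G.Q := by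
  rcases isEmpty_or_nonempty G.Q with he | hne
  · exact ⟨(Set.subsingleton_of_subsingleton).isPreconnected⟩
  constructor
  have h1 : (Set.univ : Set G.Q) = ⋃ i, G.par i '' (G.D i) := by
    ext q
    simp only [Set.mem_univ, Set.mem_iUnion, true_iff]
    obtain ⟨i, x, hx, rfl⟩ := G.exists_par q
    exact ⟨i, x, hx, rfl⟩
  rw [h1]
  refine IsPreconnected.iUnion_of_reflTransGen (fun i => (hconn i).image _ (G.continuousOn_par i)) ?_
  intro i j
  refine Relation.ReflTransGen.mono ?_ _ _ (hchain i j)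
  rintro a b ⟨x, hx, y, hy, hR⟩
  exact ⟨G.par a x, ⟨x, hx, rfl⟩, ⟨y, hy, ((G.par_eq_iff hx hy).2 hR).symm⟩⟩

end Top

variable {G} {Γ : Type} [Group Γ] (A : Act G Γ)

/-- closedness of the relation of the quotient by the group -/
theorem Act.seqClosed (h : G.SeqClosed)
    (hpd : ∀ (i j : ι) (e e' : E) (x y : ℕ → E) (a : ℕ → Γ), e ∈ G.D i → e' ∈ G.D j →
      Tendsto x atTop (𝓝 e) → Tendsto y atTop (𝓝 e') →
      (∀ n, G.R (A.ind (a n) i) (A.map (a n) i (x n)) j (y n)) → (Set.range a).Finite) :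
    A.quot.SeqClosed := by
  intro i j e e' x y he he' hx hy hR
  refine ⟨he, ?_⟩
  choose hxD a ha using hR
  have hfin := hpd i j e e' x y a he he' hx hy ha
  -- a value which is attained infinitely often
  obtain ⟨g, hg⟩ : ∃ g, ∃ᶠ n in atTop, a n = g := by
    by_contra hcon
    push Not at hcon
    have h1 : ∀ g ∈ Set.range a, ∀ᶠ n in atTop, a n ≠ g := by
      intro g _
      exact hcon g
    have h2 : ∀ᶠ n in atTop, ∀ g ∈ Set.range a, a n ≠ g := (hfin.eventually_all).2 h1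
    obtain ⟨n, hn⟩ := h2.exists
    exact hn (a n) ⟨n, rfl⟩ rfl
  obtain ⟨φ, hφ, hφg⟩ := extraction_of_frequently_atTop hg
  refine ⟨g, h (A.ind g i) j (A.map g i e) e' (fun n => A.map g i (x (φ n))) (fun n => y (φ n))
    (A.mem g he) he' ?_ (hy.comp hφ.tendsto_atTop) ?_⟩
  · have h3 : Tendsto (fun n => x (φ n)) atTop (𝓝 e) := hx.comp hφ.tendsto_atTop
    exact (A.smooth g he).continuousAt.tendsto.comp h3
  · intro n
    have := ha (φ n)
    rw [hφg n] at this
    exact this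

end MP0d206b.Et

end

/-! ### from Fields.lean -/

section

/-!
# Etale quotients: line fields
-/

set_option autoImplicit false
set_option linter.unusedSectionVars false

open scoped Manifold ContDiff Topology
open Filter

namespace MP0d206b.Et

variable {ι : Type} {E : Type} [NormedAddCommGroup E] [NormedSpace ℝ E]

/-- spanning vectors of a line field, in the pieces -/
structure LineData (G : Glue ι E) (w : ι → E → E) : Prop where
  ne : ∀ {i : ι} {x : E}, x ∈ G.D i → w i x ≠ 0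
  cont : ∀ i, ContinuousOn (w i) (G.D i)
  compat : ∀ {i : ι} {x : E} {j : ι} {y : E}, G.R i x j y → ∃ g : E → E,
    DifferentiableAt ℝ g x ∧ g x = y ∧ (∀ᶠ z in 𝓝 x, G.R i z j (g z)) ∧
    ∃ c : ℝ, c ≠ 0 ∧ fderiv ℝ g x (w i x) = c • w j y

section Top

variable (G : Glue ι E) [TopologicalSpace ι] [DiscreteTopology ι] [Nonempty G.Q]

/-- the line field on the quotient -/
noncomputable def Glue.line (w : ι → E → E) (q : G.Q) : Submodule ℝ (TangentSpace 𝓘(ℝ, E) q) :=
  Submodule.span ℝ {u : E | ∃ i x, x ∈ G.D i ∧ G.par i x = q ∧ u = (G.dpar i x (w i x) : E)}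

variable {G} {w : ι → E → E}

theorem LineData.line_par (hw : LineData G w) {i : ι} {x : E} (hx : x ∈ G.D i) :
    G.line w (G.par i x) = Submodule.span ℝ {(G.dpar i x (w i x) : E)} := by
  apply le_antisymm
  · refine Submodule.span_le.2 ?_
    rintro u ⟨j, y, hy, hyx, rfl⟩
    have hR : G.R j y i x := (G.par_eq_iff hy hx).1 hyx
    obtain ⟨g, hg, hgx, hloc, c, hc, hcw⟩ := hw.compat hR
    have h1 := G.dpar_eq hg hgx hloc (w j y)
    have h2 : (G.dpar j y (w j y) : E) = c • (G.dpar i x (w i x) : E) := by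
      rw [h1, hcw, map_smul]
    refine Submodule.mem_span_singleton.2 ⟨c, ?_⟩
    exact h2.symm
  · refine Submodule.span_le.2 ?_
    rintro _ rfl
    exact Submodule.subset_span ⟨i, x, hx, rfl, rfl⟩

theorem LineData.mem_line (hw : LineData G w) {i : ι} {x : E} (hx : x ∈ G.D i)
    {u : TangentSpace 𝓘(ℝ, E) (G.par i x)} :
    u ∈ G.line w (G.par i x) ↔ ∃ c : ℝ, u = G.dpar i x (c • w i x) := by
  rw [hw.line_par hx]
  constructor
  · intro h
    obtain ⟨c, hc⟩ := Submodule.mem_span_singleton.1 h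
    refine ⟨c, ?_⟩
    rw [map_smul]
    exact hc.symm
  · rintro ⟨c, rfl⟩
    refine Submodule.mem_span_singleton.2 ⟨c, ?_⟩
    rw [map_smul]

theorem LineData.finrank_line (hw : LineData G w) (q : G.Q) :
    Module.finrank ℝ (G.line w q) = 1 := by
  obtain ⟨i, x, hx, rfl⟩ := G.exists_par q
  rw [hw.line_par hx]
  refine finrank_span_singleton ?_
  intro h
  apply hw.ne hx
  apply (G.dpar_bijective hx).1
  rw [map_zero]
  exact h

end Top

section Flow

variable {P : Type} [NormedAddCommGroup P] [NormedSpace ℝ P] {G : Glue ι (P × ℝ)}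
  (hG : G.ShiftInv) [TopologicalSpace ι] [DiscreteTopology ι] [Nonempty G.Q]
  {w : ι → P × ℝ → P × ℝ}

/-- the generating vector field -/
theorem Glue.ShiftInv.gen_par {i : ι} {x : P × ℝ} (hx : x ∈ G.D i) :
    (mfderiv 𝓘(ℝ, ℝ) 𝓘(ℝ, P × ℝ) (fun t => hG.flow t (G.par i x)) 0 (1 : ℝ) : P × ℝ) =
      (G.dpar i x (0, 1) : P × ℝ) := by
  have h := hG.hasMFDerivAt_orbit 0 hx
  rw [shift_zero] at h
  exact h

theorem LineData.inv (hw : LineData G w) (hshift : ∀ i x s, w i (shift s x) = w i x) (t : ℝ)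
    (q : G.Q) (v : TangentSpace 𝓘(ℝ, P × ℝ) q) (hv : v ∈ G.line w q) :
    (mfderiv 𝓘(ℝ, P × ℝ) 𝓘(ℝ, P × ℝ) (hG.flow t) q v) ∈ G.line w (hG.flow t q) := by
  obtain ⟨i, x, hx, rfl⟩ := G.exists_par q
  obtain ⟨c, rfl⟩ := (hw.mem_line hx).1 hv
  have h1 := hG.mfderiv_flow t hx (c • w i x)
  have h2 : hG.flow t (G.par i x) = G.par i (shift t x) := hG.flow_par t hx
  have h3 : ∀ q', q' = G.par i (shift t x) → (G.dpar i (shift t x) (c • w i x) : P × ℝ) ∈
      (G.line w q' : Submodule ℝ (P × ℝ)) := by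
    rintro q' rfl
    refine (hw.mem_line (hG.mem t hx)).2 ⟨c, ?_⟩
    rw [hshift]
  have h4 := h3 _ h2
  exact (congrArg (fun u : P × ℝ => u ∈ (G.line w (hG.flow t (G.par i x)) :
    Submodule ℝ (P × ℝ))) h1).mpr h4

end Flow

end MP0d206b.Et

end

/-! ### from Contr.lean -/

section

/-!
# Etale quotients: pointwise contraction of a line field implies exponential contraction
-/

set_option autoImplicit false
set_option linter.unusedSectionVars false

open scoped Manifold ContDiff Topology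
open Filter

noncomputable section

namespace MP0d206b.Et

variable {ι : Type} {P : Type} [NormedAddCommGroup P] [NormedSpace ℝ P] {G : Glue ι (P × ℝ)}
  (hG : G.ShiftInv) [TopologicalSpace ι] [DiscreteTopology ι] [Nonempty G.Q]
  {w : ι → P × ℝ → P × ℝ} {F : Type} [NormedAddCommGroup F] [NormedSpace ℝ F]

/-- the derivative of `f : Q → F` read in the pieces -/
def Glue.dread (G : Glue ι (P × ℝ)) [Nonempty G.Q] (f : G.Q → F) (i : ι) (x : P × ℝ) :
    P × ℝ →L[ℝ] F :=
  fderiv ℝ (fun z => f (G.par i z)) x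

theorem Glue.contDiffAt_read {f : G.Q → F} (hf : ContMDiff 𝓘(ℝ, P × ℝ) 𝓘(ℝ, F) ∞ f) {i : ι}
    {x : P × ℝ} (hx : x ∈ G.D i) : ContDiffAt ℝ ∞ (fun z => f (G.par i z)) x := by
  rw [← contMDiffAt_iff_contDiffAt]
  exact hf.contMDiffAt.comp x (G.contMDiffAt_par hx)

theorem Glue.dread_eq {f : G.Q → F} (hf : ContMDiff 𝓘(ℝ, P × ℝ) 𝓘(ℝ, F) ∞ f) {i : ι}
    {x : P × ℝ} (hx : x ∈ G.D i) (v : P × ℝ) :
    G.dread f i x v = (mfderiv 𝓘(ℝ, P × ℝ) 𝓘(ℝ, F) f (G.par i x) (G.dpar i x v) : F) := by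
  have h1 : mfderiv 𝓘(ℝ, P × ℝ) 𝓘(ℝ, F) (f ∘ G.par i) x =
      (mfderiv 𝓘(ℝ, P × ℝ) 𝓘(ℝ, F) f (G.par i x)).comp
        (mfderiv 𝓘(ℝ, P × ℝ) 𝓘(ℝ, P × ℝ) (G.par i) x) :=
    mfderiv_comp x (hf.mdifferentiableAt (by simp)) (G.mdifferentiableAt_par hx)
  have h2 : mfderiv 𝓘(ℝ, P × ℝ) 𝓘(ℝ, F) (f ∘ G.par i) x = fderiv ℝ (f ∘ G.par i) x :=
    mfderiv_eq_fderiv
  have h3 := congrArg (fun L : P × ℝ →L[ℝ] F => L v) (h2.symm.trans h1)
  exact h3

theorem Glue.continuousOn_dread {f : G.Q → F} (hf : ContMDiff 𝓘(ℝ, P × ℝ) 𝓘(ℝ, F) ∞ f) (i : ι) :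
    ContinuousOn (G.dread f i) (G.D i) := by
  intro x hx
  have h1 : ContDiffAt ℝ ∞ (fun z => f (G.par i z)) x := G.contDiffAt_read hf hx
  exact (h1.fderiv_right (m := 0) (by simp)).continuousAt.continuousWithinAt

/-- the length of the spanning vector -/
def Glue.nn (G : Glue ι (P × ℝ)) [Nonempty G.Q] (f : G.Q → F) (w : ι → P × ℝ → P × ℝ) (i : ι)
    (x : P × ℝ) : ℝ :=
  ‖G.dread f i x (w i x)‖

theorem LineData.continuousOn_nn (hw : LineData G w) {f : G.Q → F}
    (hf : ContMDiff 𝓘(ℝ, P × ℝ) 𝓘(ℝ, F) ∞ f) (i : ι) : ContinuousOn (G.nn f w i) (G.D i) :=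
  ((G.continuousOn_dread hf i).clm_apply (hw.cont i)).norm

theorem LineData.nn_pos (hw : LineData G w) {f : G.Q → F}
    (hf : ContMDiff 𝓘(ℝ, P × ℝ) 𝓘(ℝ, F) ∞ f)
    (hinj : ∀ q, Function.Injective (mfderiv 𝓘(ℝ, P × ℝ) 𝓘(ℝ, F) f q)) {i : ι} {x : P × ℝ}
    (hx : x ∈ G.D i) : 0 < G.nn f w i x := by
  unfold Glue.nn
  rw [norm_pos_iff]
  intro h0
  rw [G.dread_eq hf hx] at h0
  have h1 : G.dpar i x (w i x) = 0 := by
    apply hinj (G.par i x)
    rw [map_zero]
    exact h0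
  apply hw.ne hx
  apply (G.dpar_bijective hx).1
  rw [map_zero, h1]

theorem norm_dread_eq_of_rel {f : G.Q → F} (hf : ContMDiff 𝓘(ℝ, P × ℝ) 𝓘(ℝ, F) ∞ f) {i j : ι}
    {x : P × ℝ} {g : P × ℝ → P × ℝ} (hg : DifferentiableAt ℝ g x)
    (hloc : ∀ᶠ z in 𝓝 x, G.R i z j (g z)) (v : P × ℝ) :
    G.dread f i x v = G.dread f j (g x) (fderiv ℝ g x v) := by
  have hR : G.R i x j (g x) := hloc.self_of_nhds
  have h1 : (fun z => f (G.par i z)) =ᶠ[𝓝 x] (fun z => f (G.par j z)) ∘ g := by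
    filter_upwards [hloc] with z hz
    show f (G.par i z) = f (G.par j (g z))
    rw [(G.par_eq_iff (G.memL hz) (G.memR hz)).2 hz]
  have h2 : fderiv ℝ ((fun z => f (G.par j z)) ∘ g) x =
      (fderiv ℝ (fun z => f (G.par j z)) (g x)).comp (fderiv ℝ g x) :=
    fderiv_comp x ((G.contDiffAt_read hf (G.memR hR)).differentiableAt (by simp)) hg
  unfold Glue.dread
  rw [h1.fderiv_eq, h2]
  rfl

include hG in
/-- the ratio is well defined -/
theorem LineData.ratio (hw : LineData G w) (hshift : ∀ i x s, w i (shift s x) = w i x) {f : G.Q → F}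
    (hf : ContMDiff 𝓘(ℝ, P × ℝ) 𝓘(ℝ, F) ∞ f) {i j : ι} {x y : P × ℝ} (hR : G.R i x j y) :
    ∃ c > 0, ∀ s, G.nn f w i (shift s x) = c * G.nn f w j (shift s y) := by
  obtain ⟨g, hg, hgx, hloc, c, hc, hcw⟩ := hw.compat hR
  subst hgx
  refine ⟨|c|, abs_pos.2 hc, fun s => ?_⟩
  -- the connecting map near `shift s x`
  have h1 : ∀ᶠ z in 𝓝 (shift s x), G.R i z j (shift s (g (shift (-s) z))) := by
    have h2 : ContinuousAt (shift (-s) : P × ℝ → P × ℝ) (shift s x) :=
      (hasFDerivAt_shift (-s) (shift s x)).continuousAt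
    have h3 : shift (-s) (shift s x) = x := by
      rw [shift_shift, neg_add_cancel, shift_zero]
    have h4 : ∀ᶠ z in 𝓝 (shift s x), G.R i (shift (-s) z) j (g (shift (-s) z)) := by
      have h5 : Tendsto (shift (-s) : P × ℝ → P × ℝ) (𝓝 (shift s x)) (𝓝 x) := by
        have := h2.tendsto
        rwa [h3] at this
      exact h5.eventually hloc
    filter_upwards [h4] with z hz
    have := hG s hz
    rw [shift_shift, add_neg_cancel, shift_zero] at this
    exact this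
  have h3 : shift (-s) (shift s x) = x := by
    rw [shift_shift, neg_add_cancel, shift_zero]
  have hd : HasFDerivAt (fun z => shift s (g (shift (-s) z))) (fderiv ℝ g x) (shift s x) := by
    have h5 : HasFDerivAt g (fderiv ℝ g x) (shift (-s) (shift s x)) := by
      rw [h3]
      exact hg.hasFDerivAt
    have h6 := (h5.comp (shift s x) (hasFDerivAt_shift (-s) (shift s x)))
    have h7 := (hasFDerivAt_shift s (g (shift (-s) (shift s x)))).comp (shift s x) h6
    rw [ContinuousLinearMap.id_comp, ContinuousLinearMap.comp_id] at h7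
    exact h7
  have h8 := norm_dread_eq_of_rel hf hd.differentiableAt h1 (w i (shift s x))
  unfold Glue.nn
  rw [h8, hd.fderiv, hshift, hcw, h3, map_smul, norm_smul, hshift, Real.norm_eq_abs]

/-- the length of a tangent vector, measured with `f : Q → F` -/
def dlen (f : G.Q → F) (q : G.Q) (v : TangentSpace 𝓘(ℝ, P × ℝ) q) : ℝ :=
  @norm F _ (mfderiv 𝓘(ℝ, P × ℝ) 𝓘(ℝ, F) f q v)

theorem dlen_smul (f : G.Q → F) (q : G.Q) (k : ℝ) (v : TangentSpace 𝓘(ℝ, P × ℝ) q) :
    dlen f q (k • v) = |k| * dlen f q v := by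
  unfold dlen
  rw [map_smul]
  exact norm_smul (β := F) k _

/-- the derivative of the flow -/
def Glue.ShiftInv.dflow (s : ℝ) (q : G.Q) (v : TangentSpace 𝓘(ℝ, P × ℝ) q) :
    TangentSpace 𝓘(ℝ, P × ℝ) (hG.flow s q) :=
  mfderiv 𝓘(ℝ, P × ℝ) 𝓘(ℝ, P × ℝ) (hG.flow s) q v

theorem dlen_par {f : G.Q → F} (hf : ContMDiff 𝓘(ℝ, P × ℝ) 𝓘(ℝ, F) ∞ f) {i : ι} {x : P × ℝ}
    (hx : x ∈ G.D i) (v : P × ℝ) : dlen f (G.par i x) (G.dpar i x v) = ‖G.dread f i x v‖ := by
  unfold dlen
  rw [G.dread_eq hf hx]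

include hG in
/-- the length of the image of the spanning vector under the flow -/
theorem LineData.nn_flow (hw : LineData G w) (hshift : ∀ i x s, w i (shift s x) = w i x)
    {f : G.Q → F} (hf : ContMDiff 𝓘(ℝ, P × ℝ) 𝓘(ℝ, F) ∞ f) {i : ι} {x : P × ℝ}
    (hx : x ∈ G.D i) (s : ℝ) :
    dlen f (hG.flow s (G.par i x)) (hG.dflow s (G.par i x) (G.dpar i x (w i x))) =
      G.nn f w i (shift s x) := by
  have h1 := hG.mfderiv_flow s hx (w i x)
  have h2 : hG.flow s (G.par i x) = G.par i (shift s x) := hG.flow_par s hx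
  have h3 : ∀ q', q' = G.par i (shift s x) → ∀ u : P × ℝ, u = (G.dpar i (shift s x) (w i x) : P × ℝ) →
      dlen f q' (u : P × ℝ) = G.nn f w i (shift s x) := by
    rintro q' rfl u rfl
    unfold Glue.nn
    rw [dlen_par hf (hG.mem s hx), hshift]
  exact h3 _ h2 _ h1

include hG in
/-- pointwise contraction implies exponential contraction -/
theorem LineData.contraction [CompactSpace G.Q] (hw : LineData G w)
    (hshift : ∀ i x s, w i (shift s x) = w i x) {f : G.Q → F}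
    (hf : ContMDiff 𝓘(ℝ, P × ℝ) 𝓘(ℝ, F) ∞ f)
    (hinj : ∀ q, Function.Injective (mfderiv 𝓘(ℝ, P × ℝ) 𝓘(ℝ, F) f q)) (ε : ℝ)
    (hpt : ∀ q : G.Q, ∃ i x, x ∈ G.D i ∧ G.par i x = q ∧ ∃ t > 0,
      G.nn f w i (shift (ε * t) x) < G.nn f w i x) :
    ∃ C > 0, ∃ a > 0, ∀ t ≥ 0, ∀ q, ∀ v ∈ G.line w q,
      dlen f (hG.flow (ε * t) q) (hG.dflow (ε * t) q v) ≤
        C * Real.exp (-a * t) * dlen f q v := by
  classical
  -- representatives
  have hrep := fun q : G.Q => G.exists_par q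
  choose ri rx hrD hrq using hrep
  -- the cocycle
  set c : ℝ → G.Q → ℝ := fun s q =>
    G.nn f w (ri q) (shift (ε * s) (rx q)) / G.nn f w (ri q) (rx q) with hc
  have hnpos : ∀ {i : ι} {x : P × ℝ}, x ∈ G.D i → 0 < G.nn f w i x :=
    fun hx => hw.nn_pos hf hinj hx
  have hcval : ∀ {i : ι} {x : P × ℝ} (hx : x ∈ G.D i) (s : ℝ),
      c s (G.par i x) = G.nn f w i (shift (ε * s) x) / G.nn f w i x := by
    intro i x hx s
    have hR : G.R (ri (G.par i x)) (rx (G.par i x)) i x :=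
      (G.par_eq_iff (hrD _) hx).1 (hrq _)
    obtain ⟨k, hk, hks⟩ := hw.ratio hG hshift hf hR
    have h0 := hks 0
    rw [shift_zero, shift_zero] at h0
    simp only [hc]
    rw [hks, h0, mul_div_mul_left _ _ hk.ne']
  have hpos : ∀ s q, 0 < c s q := fun s q => div_pos (hnpos (hG.mem _ (hrD q))) (hnpos (hrD q))
  have hcoc : ∀ s t q, c (s + t) q = c s (hG.flow (ε * t) q) * c t q := by
    intro s t q
    obtain ⟨i, x, hx, rfl⟩ := G.exists_par q
    rw [hG.flow_par _ hx, hcval hx, hcval hx, hcval (hG.mem _ hx), shift_shift, ← mul_add]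
    have h1 := (hnpos (hG.mem (ε * t) hx)).ne'
    field_simp
  have hcont : Continuous fun p : ℝ × G.Q => c p.1 p.2 := by
    rw [continuous_iff_continuousAt]
    rintro ⟨s, q⟩
    obtain ⟨i, x, hx, rfl⟩ := G.exists_par q
    have h := G.isLocalDiffeomorphAt_par hx
    have h2 : h.localInverse (G.par i x) = x := h.localInverse_left_inv h.localInverse_mem_target
    have h1 : ContinuousAt h.localInverse (G.par i x) := h.localInverse_contMDiffAt.continuousAt
    have h3 : ContinuousAt (fun p : ℝ × G.Q => h.localInverse p.2) (s, G.par i x) :=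
      ContinuousAt.comp (f := Prod.snd) (x := (s, G.par i x)) h1 continuousAt_snd
    have h4 : ContinuousAt (fun p : ℝ × G.Q => shift (ε * p.1) (h.localInverse p.2))
        (s, G.par i x) := by
      have h5 : ContinuousAt (fun p : ℝ × G.Q => (ε * p.1, h.localInverse p.2)) (s, G.par i x) :=
        (continuousAt_const.mul continuousAt_fst).prodMk h3
      have h6 : Continuous (fun p : ℝ × (P × ℝ) => shift p.1 p.2) := contDiff_shift.continuous
      exact ContinuousAt.comp (f := fun p : ℝ × G.Q => (ε * p.1, h.localInverse p.2))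
        (g := fun p : ℝ × (P × ℝ) => shift p.1 p.2) h6.continuousAt h5
    have hnn : ∀ {z : P × ℝ}, z ∈ G.D i → ContinuousAt (G.nn f w i) z := fun {z} hz =>
      (hw.continuousOn_nn hf i).continuousAt ((G.isOpen i).mem_nhds hz)
    have h7 : ContinuousAt (fun p : ℝ × G.Q =>
        G.nn f w i (shift (ε * p.1) (h.localInverse p.2)) / G.nn f w i (h.localInverse p.2))
        (s, G.par i x) := by
      refine ContinuousAt.div ?_ ?_ ?_
      · refine ContinuousAt.comp (f := fun p : ℝ × G.Q => shift (ε * p.1) (h.localInverse p.2))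
          (g := G.nn f w i) ?_ h4
        show ContinuousAt (G.nn f w i) (shift (ε * s) (h.localInverse (G.par i x)))
        rw [h2]
        exact hnn (hG.mem _ hx)
      · refine ContinuousAt.comp (f := fun p : ℝ × G.Q => h.localInverse p.2)
          (g := G.nn f w i) ?_ h3
        show ContinuousAt (G.nn f w i) (h.localInverse (G.par i x))
        rw [h2]
        exact hnn hx
      · show G.nn f w i (h.localInverse (G.par i x)) ≠ 0
        rw [h2]
        exact (hnpos hx).ne'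
    refine h7.congr ?_
    have h8 : ∀ᶠ q in 𝓝 (G.par i x), h.localInverse q ∈ G.D i ∧
        G.par i (h.localInverse q) = q := by
      have h9 : ∀ᶠ q in 𝓝 (G.par i x), h.localInverse q ∈ G.D i := by
        have : Tendsto h.localInverse (𝓝 (G.par i x)) (𝓝 x) := by
          have := h1.tendsto
          rwa [h2] at this
        exact this.eventually ((G.isOpen i).mem_nhds hx)
      filter_upwards [h9, h.localInverse_eventuallyEq_right] with q hq hq'
      exact ⟨hq, hq'⟩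
    have h10 : ∀ᶠ p : ℝ × G.Q in 𝓝 (s, G.par i x), h.localInverse p.2 ∈ G.D i ∧
        G.par i (h.localInverse p.2) = p.2 :=
      (continuous_snd.tendsto (s, G.par i x)).eventually h8
    filter_upwards [h10] with p hp
    conv_rhs => rw [← hp.2]
    exact (hcval hp.1 p.1).symm
  have hcontr : ∀ q, ∃ s > 0, c s q < 1 := by
    intro q
    obtain ⟨i, x, hx, rfl, t, ht, hlt⟩ := hpt q
    refine ⟨t, ht, ?_⟩
    rw [hcval hx, div_lt_one (hnpos hx)]
    exact hlt
  obtain ⟨C, hC, a, ha, hCa⟩ := cocycle_contraction (fun t q => hG.flow (ε * t) q) c hcont hpos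
    hcoc hcontr
  refine ⟨C, hC, a, ha, ?_⟩
  intro t ht q v hv
  obtain ⟨i, x, hx, rfl⟩ := G.exists_par q
  obtain ⟨k, rfl⟩ := (hw.mem_line hx).1 hv
  have h1 := hCa (G.par i x) t ht
  rw [hcval hx, div_le_iff₀ (hnpos hx)] at h1
  have h2 := hw.nn_flow hG hshift hf hx (ε * t)
  have h3 : G.nn f w i x = dlen f (G.par i x) (G.dpar i x (w i x)) := (dlen_par hf hx _).symm
  have h5 : hG.dflow (ε * t) (G.par i x) (G.dpar i x (k • w i x)) =
      k • hG.dflow (ε * t) (G.par i x) (G.dpar i x (w i x)) := by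
    unfold Glue.ShiftInv.dflow
    rw [map_smul, map_smul]
  rw [h5, map_smul, dlen_smul, dlen_smul, h2, ← h3]
  have h4 : |k| * G.nn f w i (shift (ε * t) x) ≤ |k| * (C * Real.exp (-a * t) * G.nn f w i x) :=
    mul_le_mul_of_nonneg_left h1 (abs_nonneg _)
  calc _ ≤ _ := h4
    _ = _ := by ring

end MP0d206b.Et

end
end

/-! ### from Closed.lean -/

section

/-!
# Etale quotients: line fields are closed subsets of the tangent bundle
-/

set_option autoImplicit false
set_option linter.unusedSectionVars false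

open scoped Manifold ContDiff Topology
open Filter Bundle

noncomputable section

namespace MP0d206b.Et

variable {ι : Type} {E : Type} [NormedAddCommGroup E] [NormedSpace ℝ E]
  {G : Glue ι E} [TopologicalSpace ι] [DiscreteTopology ι] [Nonempty G.Q] {w : ι → E → E}

/-- independence is an open condition -/
theorem LineData.isOpen_indep (hw : LineData G w) {i : ι} {x u : E} (hx : x ∈ G.D i)
    (hu : ∀ c : ℝ, u ≠ c • w i x) :
    ∀ᶠ p : E × E in 𝓝 (x, u), p.1 ∈ G.D i ∧ ∀ c : ℝ, p.2 ≠ c • w i p.1 := by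
  have h0 : w i x ≠ 0 := hw.ne hx
  have h1 : LinearIndependent ℝ ![w i x, u] := by
    rw [LinearIndependent.pair_iff]
    intro s t hst
    have ht : t = 0 := by
      by_contra ht
      apply hu (-(s / t))
      have h2 : t • u = -(s • w i x) := by
        rw [eq_neg_iff_add_eq_zero, add_comm]
        exact hst
      calc u = t⁻¹ • (t • u) := by rw [smul_smul, inv_mul_cancel₀ ht, one_smul]
        _ = -(s / t) • w i x := by
          rw [h2, smul_neg, smul_smul, neg_smul]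
          congr 2
          rw [mul_comm, div_eq_mul_inv]
    subst ht
    rw [zero_smul, add_zero, smul_eq_zero] at hst
    exact ⟨hst.resolve_right h0, rfl⟩
  have h2 : ContinuousAt (fun p : E × E => ![w i p.1, p.2]) (x, u) := by
    have h3 : ContinuousAt (w i) x := (hw.cont i).continuousAt ((G.isOpen i).mem_nhds hx)
    rw [continuousAt_pi]
    intro k
    fin_cases k
    · exact ContinuousAt.comp (f := Prod.fst) (x := (x, u)) h3 continuousAt_fst
    · exact continuousAt_snd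
  have h4 : ∀ᶠ p : E × E in 𝓝 (x, u), LinearIndependent ℝ ![w i p.1, p.2] :=
    h2.eventually (isOpen_setOfPred_linearIndependent.mem_nhds h1)
  have h5 : ∀ᶠ p : E × E in 𝓝 (x, u), p.1 ∈ G.D i :=
    continuousAt_fst.eventually ((G.isOpen i).mem_nhds hx)
  filter_upwards [h4, h5] with p hp hp'
  refine ⟨hp', fun c hc => ?_⟩
  rw [LinearIndependent.pair_iff] at hp
  have := hp c (-1) (by rw [hc]; simp)
  simp at this

/-- the local inverse of a parametrization, on the tangent bundle -/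
theorem LineData.isClosed_line (hw : LineData G w) :
    IsClosed {v : TangentBundle 𝓘(ℝ, E) G.Q | v.2 ∈ G.line w v.1} := by
  rw [← isOpen_compl_iff, isOpen_iff_mem_nhds]
  rintro ⟨q, v⟩ hv
  obtain ⟨i, x, hx, rfl⟩ := G.exists_par q
  obtain ⟨u, rfl⟩ := (G.dpar_bijective hx).2 v
  have hu : ∀ c : ℝ, u ≠ c • w i x := by
    rintro c rfl
    exact hv ((hw.mem_line hx).2 ⟨c, rfl⟩)
  have h := G.isLocalDiffeomorphAt_par hx
  set φ := h.localInverse with hφ
  have h2 : φ (G.par i x) = x := h.localInverse_left_inv h.localInverse_mem_target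
  have hopen : IsOpen φ.source := h.localInverse_open_source
  have hmem : G.par i x ∈ φ.source := h.localInverse_mem_source
  have hsm : ContMDiffOn 𝓘(ℝ, E) 𝓘(ℝ, E) ∞ φ φ.source := h.localInverse_contMDiffOn
  have htan : ContinuousOn (tangentMapWithin 𝓘(ℝ, E) 𝓘(ℝ, E) φ φ.source)
      (π E (TangentSpace 𝓘(ℝ, E)) ⁻¹' φ.source) :=
    hsm.continuousOn_tangentMapWithin (by simp) hopen.uniqueMDiffOn
  have hproj : Continuous (π E (TangentSpace 𝓘(ℝ, E) : G.Q → Type _)) :=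
    FiberBundle.continuous_proj E (TangentSpace 𝓘(ℝ, E))
  have hO : IsOpen (π E (TangentSpace 𝓘(ℝ, E) : G.Q → Type _) ⁻¹' φ.source) :=
    hopen.preimage hproj
  have hcont : ContinuousAt (tangentMapWithin 𝓘(ℝ, E) 𝓘(ℝ, E) φ φ.source)
      (⟨G.par i x, G.dpar i x u⟩ : TangentBundle 𝓘(ℝ, E) G.Q) :=
    htan.continuousAt (hO.mem_nhds hmem)
  -- the map to `E × E`
  have hψ : ContinuousAt (fun p : TangentBundle 𝓘(ℝ, E) G.Q =>
      (tangentBundleModelSpaceHomeomorph 𝓘(ℝ, E))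
        (tangentMapWithin 𝓘(ℝ, E) 𝓘(ℝ, E) φ φ.source p))
      (⟨G.par i x, G.dpar i x u⟩ : TangentBundle 𝓘(ℝ, E) G.Q) :=
    (tangentBundleModelSpaceHomeomorph 𝓘(ℝ, E)).continuous.continuousAt.comp hcont
  -- `φ` inverts the parametrization, also for the derivatives
  have hright : ∀ q ∈ φ.source, G.par i (φ q) = q := fun q hq => h.localInverse_right_inv hq
  have hmd : ∀ q ∈ φ.source, MDifferentiableAt 𝓘(ℝ, E) 𝓘(ℝ, E) φ q := fun q hq =>
    (hsm.mdifferentiableOn (by simp) q hq).mdifferentiableAt (hopen.mem_nhds hq)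
  have key : ∀ q ∈ φ.source, φ q ∈ G.D i → ∀ v : E,
      (G.dpar i (φ q) (mfderiv 𝓘(ℝ, E) 𝓘(ℝ, E) φ q v : E) : E) = v := by
    intro q hq hD v
    have h3 : (G.par i) ∘ φ =ᶠ[𝓝 q] id := by
      filter_upwards [hopen.mem_nhds hq] with q' hq'
      exact hright q' hq'
    have h4 : mfderiv 𝓘(ℝ, E) 𝓘(ℝ, E) ((G.par i) ∘ φ) q =
        (mfderiv 𝓘(ℝ, E) 𝓘(ℝ, E) (G.par i) (φ q)).comp (mfderiv 𝓘(ℝ, E) 𝓘(ℝ, E) φ q) :=
      mfderiv_comp q (G.mdifferentiableAt_par hD) (hmd q hq)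
    have h5 := h3.mfderiv_eq (I := 𝓘(ℝ, E)) (I' := 𝓘(ℝ, E))
    have h6 : mfderiv 𝓘(ℝ, E) 𝓘(ℝ, E) (id : G.Q → G.Q) q = ContinuousLinearMap.id ℝ E :=
      mfderiv_id
    have h7 := congrArg (fun L : E →L[ℝ] E => L v) (h4.symm.trans (h5.trans h6))
    exact h7
  have hval : (fun p : TangentBundle 𝓘(ℝ, E) G.Q =>
      (tangentBundleModelSpaceHomeomorph 𝓘(ℝ, E))
        (tangentMapWithin 𝓘(ℝ, E) 𝓘(ℝ, E) φ φ.source p))
      (⟨G.par i x, G.dpar i x u⟩ : TangentBundle 𝓘(ℝ, E) G.Q) = ((x, u) : E × E) := by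
    have h8 : (tangentBundleModelSpaceHomeomorph 𝓘(ℝ, E))
        (tangentMapWithin 𝓘(ℝ, E) 𝓘(ℝ, E) φ φ.source
          (⟨G.par i x, G.dpar i x u⟩ : TangentBundle 𝓘(ℝ, E) G.Q)) =
        ((φ (G.par i x), (mfderivWithin 𝓘(ℝ, E) 𝓘(ℝ, E) φ φ.source (G.par i x)
          (G.dpar i x u) : E)) : E × E) := rfl
    have h9 : mfderivWithin 𝓘(ℝ, E) 𝓘(ℝ, E) φ φ.source (G.par i x) =
        mfderiv 𝓘(ℝ, E) 𝓘(ℝ, E) φ (G.par i x) :=
      mfderivWithin_of_isOpen hopen hmem
    have h10 : ∀ y, y = x → ∀ z : E, (G.dpar i y z : E) = (G.dpar i x u : E) → z = u := by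
      rintro y rfl z hz
      exact (G.dpar_bijective hx).1 hz
    have h11 := h10 _ h2 _ (key (G.par i x) hmem (by rw [h2]; exact hx) (G.dpar i x u))
    rw [← h9] at h11
    exact h8.trans (Prod.ext h2 h11)
  have hfin := hψ.eventually (by rw [hval]; exact hw.isOpen_indep hx hu)
  filter_upwards [hfin, hO.mem_nhds hmem] with p hp hpO
  intro hcon
  obtain ⟨hp1, hp2⟩ := hp
  have hp1' : φ p.1 ∈ G.D i := hp1
  have h12 : G.par i (φ p.1) = p.1 := hright p.1 hpO
  have h13 : ∀ q' (z : E), q' = G.par i (φ p.1) → z ∈ (G.line w q' : Submodule ℝ E) →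
      ∃ c : ℝ, z = (G.dpar i (φ p.1) (c • w i (φ p.1)) : E) := by
    rintro q' z rfl hz
    exact (hw.mem_line hp1').1 hz
  obtain ⟨c, hc⟩ := h13 p.1 p.2 h12.symm hcon
  have h14 := key p.1 hpO hp1' p.2
  have h15 : (mfderiv 𝓘(ℝ, E) 𝓘(ℝ, E) φ p.1 p.2 : E) = c • w i (φ p.1) :=
    (G.dpar_bijective hp1').1 (h14.trans hc)
  apply hp2 c
  have h16 : mfderivWithin 𝓘(ℝ, E) 𝓘(ℝ, E) φ φ.source p.1 = mfderiv 𝓘(ℝ, E) 𝓘(ℝ, E) φ p.1 :=
    mfderivWithin_of_isOpen hopen hpO
  rw [← h16] at h15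
  exact h15

end MP0d206b.Et

end
end
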