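import Pool.Agent.Work.MP_0d206b_gt.Main
import Pool.Agent.Work.MP_0d206b_gt.Et.Mid

/-! MP_0d206b_gt: good gluing data are realised by Anosov flows on closed 3-manifolds -/

/-! ### from Build.lean -/

section

/-!
# From the list `Good` of properties to the closed 3-manifold
-/

set_option autoImplicit false
set_option linter.unusedSectionVars false

open scoped Manifold ContDiff Topology
open Filter MP0d206b.Et

noncomputable section

namespace Pool.Agent.Work.MP_0d206b_gt

variable {ι : Type} {Γ : Type} [Group Γ] {dom : ι → Set E} {glue : ι → E → ι → E → Prop}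
  {iact : Γ → ι → ι} {act : Γ → ι → E → E} {es eu : ι → E → E}

/-- the gluing datum -/
def Good.G (h : Good dom glue iact act es eu) : Glue ι E where
  D := dom
  R := fun i x j y => x ∈ dom i ∧ glue i x j y
  isOpen := h.isOpen_dom
  memL := fun h => h.1
  refl := fun hx => ⟨hx, (h.glue_self _ _ _).2 rfl⟩
  symm := fun hR => ⟨h.glue_dom _ _ _ _ hR.1 hR.2, h.glue_symm _ _ _ _ hR.2⟩
  trans := fun hR hR' => ⟨hR.1, h.glue_trans _ _ _ _ _ _ hR.2 hR'.2⟩
  loc := by
    rintro i x j y ⟨hx, hR⟩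
    obtain ⟨g, hg, hgx, hloc, -⟩ := h.compat i x j y hx hR
    refine ⟨g, hg, hgx, ?_⟩
    filter_upwards [hloc, (h.isOpen_dom i).mem_nhds hx] with z hz hz'
    exact ⟨hz', hz⟩
  disc := by
    intro i x hx
    exact ⟨Set.univ, Filter.univ_mem, fun z _ w _ hR => (h.glue_self _ _ _).1 hR.2⟩

theorem Good.G_R (h : Good dom glue iact act es eu) {i : ι} {x : E} {j : ι} {y : E} :
    h.G.R i x j y ↔ x ∈ dom i ∧ glue i x j y := Iff.rfl

theorem Good.G_D (h : Good dom glue iact act es eu) (i : ι) : h.G.D i = dom i := rfl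

theorem Good.seqClosed (h : Good dom glue iact act es eu) : h.G.SeqClosed := by
  intro i j e e' x y he he' hx hy hR
  exact ⟨he, h.closed i j e e' x y he he' hx hy fun n => (hR n).2⟩

theorem Good.shiftInv (h : Good dom glue iact act es eu) : h.G.ShiftInv := by
  rintro s i x j y ⟨hx, hR⟩
  exact ⟨h.dom_shift i x s hx, h.glue_shift _ _ _ _ s hR⟩

theorem infinitely_often {Γ : Type} {a : ℕ → Γ} (hfin : (Set.range a).Finite) {P : ℕ → Prop}
    (hP : ∃ᶠ n in atTop, P n) : ∃ g, ∃ᶠ n in atTop, P n ∧ a n = g := by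
  by_contra hcon
  push Not at hcon
  have h1 : ∀ g ∈ Set.range a, ∀ᶠ n in atTop, P n → a n ≠ g := fun g _ => hcon g
  have h2 : ∀ᶠ n in atTop, ∀ g ∈ Set.range a, P n → a n ≠ g := (hfin.eventually_all).2 h1
  obtain ⟨n, hn1, hn2⟩ := (hP.and_eventually h2).exists
  exact hn2 (a n) ⟨n, rfl⟩ hn1 rfl

/-- a limit of the group elements -/
theorem Good.limit (h : Good dom glue iact act es eu) {i j : ι} {e e' : E} (he : e ∈ dom i)
    (he' : e' ∈ dom j) {x y : ℕ → E} {a : ℕ → Γ} (hx : Tendsto x atTop (𝓝 e))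
    (hy : Tendsto y atTop (𝓝 e'))
    (hR : ∀ n, glue (iact (a n) i) (act (a n) i (x n)) j (y n)) {P : ℕ → Prop}
    (hP : ∃ᶠ n in atTop, P n) :
    ∃ g, glue (iact g i) (act g i e) j e' ∧ ∃ n, P n ∧ a n = g := by
  obtain ⟨g, hg⟩ := infinitely_often (h.pd i j e e' x y a he he' hx hy hR) hP
  obtain ⟨φ, hφ, hφg⟩ := extraction_of_frequently_atTop hg
  refine ⟨g, ?_, φ 0, hφg 0⟩
  refine h.closed (iact g i) j (act g i e) e' (fun n => act g i (x (φ n))) (fun n => y (φ n))
    (h.act_dom g i e he) he' ?_ (hy.comp hφ.tendsto_atTop) ?_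
  · have h3 : Tendsto (fun n => x (φ n)) atTop (𝓝 e) := hx.comp hφ.tendsto_atTop
    exact (h.act_smooth g i e he).continuousAt.tendsto.comp h3
  · intro n
    have := hR (φ n)
    rw [(hφg n).2] at this
    exact this

theorem Good.pd_nhds (h : Good dom glue iact act es eu) {i j : ι} {e e' : E} (he : e ∈ dom i)
    (he' : e' ∈ dom j) : ∃ V ∈ 𝓝 e, ∃ W ∈ 𝓝 e', ∃ g0 : Γ, ∀ x' ∈ V, ∀ y' ∈ W, ∀ g : Γ,
      glue (iact g i) (act g i x') j y' → g = g0 := by
  by_contra hcon
  push Not at hcon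
  -- uniqueness of the limit element
  have huniq : ∀ g g', glue (iact g i) (act g i e) j e' → glue (iact g' i) (act g' i e) j e' →
      g = g' := by
    intro g g' hg hg'
    have h1 := h.glue_trans _ _ _ _ _ _ hg (h.glue_symm _ _ _ _ hg')
    have h2 := h.act_glue g'⁻¹ _ _ _ _ h1
    rw [← h.iact_mul, ← h.iact_mul, ← h.act_mul, ← h.act_mul, inv_mul_cancel, h.iact_one,
      h.act_one] at h2
    have h3 := h.free _ i e he h2
    rw [inv_mul_eq_one] at h3
    exact h3.symm
  have key : ∀ g0 : Γ, ∃ (x y : ℕ → E) (a : ℕ → Γ), Tendsto x atTop (𝓝 e) ∧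
      Tendsto y atTop (𝓝 e') ∧ (∀ n, glue (iact (a n) i) (act (a n) i (x n)) j (y n)) ∧
      ∀ n, a n ≠ g0 := by
    intro g0
    have h1 : ∀ n : ℕ, ∃ x' y' g, x' ∈ Metric.ball e (1 / ((n : ℝ) + 1)) ∧
        y' ∈ Metric.ball e' (1 / ((n : ℝ) + 1)) ∧
        glue (iact g i) (act g i x') j y' ∧ g ≠ g0 := by
      intro n
      obtain ⟨x', hx', y', hy', g, hg, hne⟩ := hcon (Metric.ball e (1 / ((n : ℝ) + 1)))
        (Metric.ball_mem_nhds e (by positivity)) (Metric.ball e' (1 / ((n : ℝ) + 1)))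
        (Metric.ball_mem_nhds e' (by positivity)) g0
      exact ⟨x', y', g, hx', hy', hg, hne⟩
    choose x y a hx hy ha hne using h1
    refine ⟨x, y, a, ?_, ?_, ha, hne⟩
    · rw [tendsto_iff_dist_tendsto_zero]
      refine squeeze_zero (fun _ => dist_nonneg) (fun n => (hx n).le)
        tendsto_one_div_add_atTop_nhds_zero_nat
    · rw [tendsto_iff_dist_tendsto_zero]
      refine squeeze_zero (fun _ => dist_nonneg) (fun n => (hy n).le)
        tendsto_one_div_add_atTop_nhds_zero_nat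
  have htrue : ∃ᶠ n : ℕ in atTop, True := Filter.Frequently.of_forall fun _ => trivial
  obtain ⟨x, y, a, hx, hy, ha, -⟩ := key 1
  obtain ⟨g1, hg1, -⟩ := h.limit he he' hx hy ha htrue
  obtain ⟨x, y, a, hx, hy, ha, hne⟩ := key g1
  obtain ⟨g2, hg2, n, -, hn⟩ := h.limit he he' hx hy ha htrue
  exact hne n (hn.trans (huniq g2 g1 hg2 hg1))

/-- the action on the gluing datum -/
def Good.A (h : Good dom glue iact act es eu) : Act h.G Γ where
  ind := iact
  map := act
  smooth := fun g {i x} hx => h.act_smooth g i x hx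
  one := by
    intro i x hx
    rw [h.iact_one, h.act_one]
    exact h.G.refl hx
  mul := by
    intro a b i x hx
    rw [h.iact_mul, h.act_mul]
    exact h.G.refl (h.act_dom a _ _ (h.act_dom b _ _ hx))
  rel := by
    rintro a i x j y ⟨hx, hR⟩
    exact ⟨h.act_dom a i x hx, h.act_glue a _ _ _ _ hR⟩
  pd := by
    intro i x j y hx hy
    obtain ⟨V, hV, W, hW, g0, hg0⟩ := h.pd_nhds (show x ∈ dom i from hx) (show y ∈ dom j from hy)
    exact ⟨V, hV, W, hW, g0, fun x' hx' y' hy' g hg => hg0 x' hx' y' hy' g hg.2⟩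

theorem Good.A_seqClosed (h : Good dom glue iact act es eu) : h.A.quot.SeqClosed :=
  h.A.seqClosed h.seqClosed fun i j e e' x y a he he' hx hy hR =>
    h.pd i j e e' x y a he he' hx hy fun n => (hR n).2

theorem Good.A_shiftInv (h : Good dom glue iact act es eu) : h.A.quot.ShiftInv := by
  refine Act.ShiftInv.quot h.shiftInv ?_
  intro s g i x hx
  show h.G.R (iact g i) (act g i (shift s x)) (iact g i) (shift s (act g i x))
  rw [h.act_shift]
  exact h.G.refl (h.dom_shift _ _ s (h.act_dom g i x hx))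

theorem Good.nonempty_Q (h : Good dom glue iact act es eu) : Nonempty h.G.Q := by
  obtain ⟨i⟩ := h.nonempty
  obtain ⟨x, hx⟩ := (h.conn i).nonempty
  exact ⟨h.G.proj (h.G.pt (show x ∈ h.G.D i from hx))⟩

section Top

variable [TopologicalSpace ι] [DiscreteTopology ι]

theorem Good.compactSpace (h : Good dom glue iact act es eu) : CompactSpace h.A.quot.Q := by
  obtain ⟨s, K, hK, hcov⟩ := h.compact
  refine h.A.quot.compactSpace s K (fun i hi => (hK i hi).1) (fun i hi => (hK i hi).2) ?_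
  intro i x hx
  obtain ⟨a, j, hj, y, hy, hR⟩ := hcov i x hx
  exact ⟨j, hj, y, hy, hx, a, h.act_dom a i x hx, hR⟩

theorem Good.t2Space (h : Good dom glue iact act es eu) : T2Space h.A.quot.Q :=
  h.A.quot.t2Space h.A_seqClosed

theorem Good.t2Space' (h : Good dom glue iact act es eu) : T2Space h.G.Q :=
  h.G.t2Space h.seqClosed

theorem Good.preconnectedSpace' (h : Good dom glue iact act es eu) : PreconnectedSpace h.G.Q := by
  refine h.G.preconnectedSpace (fun i => (h.conn i).isConnected.isPreconnected) ?_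
  intro i j
  refine Relation.ReflTransGen.mono ?_ _ _ (h.chain i j)
  rintro a b ⟨x, hx, y, hy, hR⟩
  exact ⟨x, hx, y, hy, hx, hR⟩

theorem Good.connectedSpace (h : Good dom glue iact act es eu) : ConnectedSpace h.A.quot.Q := by
  have h1 := h.preconnectedSpace'
  have h2 := h.nonempty_Q
  have h3 : PreconnectedSpace h.A.quot.Q := by
    constructor
    rw [← h.A.cov_surjective.range_eq, ← Set.image_univ]
    exact isPreconnected_univ.image _ h.A.isOpenQuotientMap_cov.continuous.continuousOn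
  exact { toPreconnectedSpace := h3, toNonempty := h2.map h.A.cov }

end Top

end Pool.Agent.Work.MP_0d206b_gt

end
end

/-! ### from Anosov.lean -/

section

/-!
# From the list `Good` of properties to the Anosov flow
-/

set_option autoImplicit false
set_option linter.unusedSectionVars false

open scoped Manifold ContDiff Topology
open Filter MP0d206b.Et

noncomputable section

namespace Pool.Agent.Work.MP_0d206b_gt

variable {ι : Type} {Γ : Type} [Group Γ] {dom : ι → Set E} {glue : ι → E → ι → E → Prop}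
  {iact : Γ → ι → ι} {act : Γ → ι → E → E} {es eu : ι → E → E}

/-- the spanning vectors define a line field on the quotient -/
theorem Good.lineData (h : Good dom glue iact act es eu) {w : ι → E → E}
    (hne : ∀ i x, x ∈ dom i → w i x ≠ 0) (hcont : ∀ i, ContinuousOn (w i) (dom i))
    (hcompat : ∀ i e j e', e ∈ dom i → glue i e j e' → ∃ g : E → E, ContDiffAt ℝ ∞ g e ∧
      g e = e' ∧ (∀ᶠ z in 𝓝 e, glue i z j (g z)) ∧
      (∃ c : ℝ, c ≠ 0 ∧ fderiv ℝ g e (w i e) = c • w j e'))
    (hact : ∀ a i e, e ∈ dom i →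
      ∃ c : ℝ, c ≠ 0 ∧ fderiv ℝ (act a i) e (w i e) = c • w (iact a i) (act a i e)) :
    LineData h.A.quot w where
  ne := fun {i x} hx => hne i x hx
  cont := hcont
  compat := by
    rintro i x j y ⟨hx, a, -, hR⟩
    have hx' : act a i x ∈ dom (iact a i) := h.act_dom a i x hx
    obtain ⟨g, hg, hgx, hloc, c, hc, hcw⟩ := hcompat (iact a i) (act a i x) j y hx' hR
    obtain ⟨c', hc', hcw'⟩ := hact a i x hx
    have hs : ContDiffAt ℝ ∞ (act a i) x := h.act_smooth a i x hx
    refine ⟨fun z => g (act a i z), ?_, hgx, ?_, c * c', mul_ne_zero hc hc', ?_⟩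
    · exact (hg.differentiableAt (by simp)).comp x (hs.differentiableAt (by simp))
    · have h1 := hs.continuousAt.eventually hloc
      filter_upwards [h1, (h.isOpen_dom i).mem_nhds hx] with z hz hz'
      exact ⟨hz', a, h.act_dom a i z hz', hz⟩
    · have h2 : fderiv ℝ (fun z => g (act a i z)) x =
          (fderiv ℝ g (act a i x)).comp (fderiv ℝ (act a i) x) :=
        fderiv_comp x (hg.differentiableAt (by simp)) (hs.differentiableAt (by simp))
      rw [h2, ContinuousLinearMap.comp_apply, hcw', map_smul, hcw, smul_smul, mul_comm]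

theorem Good.es_ne (h : Good dom glue iact act es eu) : ∀ i x, x ∈ dom i → es i x ≠ 0 := by
  intro i x hx h0
  have := h.indep i x hx
  rw [h0] at this
  simp at this

theorem Good.eu_ne (h : Good dom glue iact act es eu) : ∀ i x, x ∈ dom i → eu i x ≠ 0 := by
  intro i x hx h0
  have := h.indep i x hx
  rw [h0] at this
  simp at this

theorem Good.lineData_s (h : Good dom glue iact act es eu) : LineData h.A.quot es := by
  refine h.lineData h.es_ne h.es_cont ?_ h.es_act
  intro i e j e' he hR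
  obtain ⟨g, h1, h2, h3, h4, -⟩ := h.compat i e j e' he hR
  exact ⟨g, h1, h2, h3, h4⟩

theorem Good.lineData_u (h : Good dom glue iact act es eu) : LineData h.A.quot eu := by
  refine h.lineData h.eu_ne h.eu_cont ?_ h.eu_act
  intro i e j e' he hR
  obtain ⟨g, h1, h2, h3, -, h4⟩ := h.compat i e j e' he hR
  exact ⟨g, h1, h2, h3, h4⟩

/-- the three directions span -/
theorem Good.span_top (h : Good dom glue iact act es eu) {i : ι} {x : E} (hx : x ∈ dom i) (v : E) :
    ∃ a b c : ℝ, v = a • es i x + b • eu i x + c • ((0, 0), 1) := by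
  have hd := h.indep i x hx
  set A := es i x with hA
  set B := eu i x with hB
  set d := A.1.1 * B.1.2 - A.1.2 * B.1.1 with hdd
  refine ⟨(v.1.1 * B.1.2 - v.1.2 * B.1.1) / d, (A.1.1 * v.1.2 - A.1.2 * v.1.1) / d,
    v.2 - ((v.1.1 * B.1.2 - v.1.2 * B.1.1) / d) * A.2 -
      ((A.1.1 * v.1.2 - A.1.2 * v.1.1) / d) * B.2, ?_⟩
  have e1 : v.1.1 = (v.1.1 * B.1.2 - v.1.2 * B.1.1) / d * A.1.1 +
      (A.1.1 * v.1.2 - A.1.2 * v.1.1) / d * B.1.1 := by
    field_simp
    rw [hdd]
    ring
  have e2 : v.1.2 = (v.1.1 * B.1.2 - v.1.2 * B.1.1) / d * A.1.2 +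
      (A.1.1 * v.1.2 - A.1.2 * v.1.1) / d * B.1.2 := by
    field_simp
    rw [hdd]
    ring
  refine Prod.ext (Prod.ext ?_ ?_) ?_
  · simpa using e1
  · simpa using e2
  · simp

section Top

variable [TopologicalSpace ι] [DiscreteTopology ι]

/-- the pointwise contraction of the length of the spanning vectors -/
theorem Good.pointwise (h : Good dom glue iact act es eu) [Nonempty h.A.quot.Q] {w : ι → E → E}
    (hw : LineData h.A.quot w) (hshift : ∀ i x s, w i (shift s x) = w i x) (ε : ℝ)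
    (hc : GoodContr dom glue iact act w ε) {n : ℕ} {f : h.A.quot.Q → EuclideanSpace ℝ (Fin n)}
    (hf : ContMDiff 𝓘(ℝ, E) 𝓘(ℝ, EuclideanSpace ℝ (Fin n)) ∞ f)
    (hinj : ∀ q, Function.Injective
      (mfderiv 𝓘(ℝ, E) 𝓘(ℝ, EuclideanSpace ℝ (Fin n)) f q)) (q : h.A.quot.Q) :
    ∃ i x, x ∈ h.A.quot.D i ∧ h.A.quot.par i x = q ∧ ∃ t > 0,
      h.A.quot.nn f w i (shift (ε * t) x) < h.A.quot.nn f w i x := by
  obtain ⟨i, e, he, rfl⟩ := h.A.quot.exists_par q
  obtain ⟨i', e', hR, j, K, hK, hKD, hδ⟩ := hc i e he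
  have he' : e' ∈ dom i' := h.glue_dom _ _ _ _ he hR
  have hRq : h.A.quot.R i' e' i e := by
    refine ⟨he', 1, ?_⟩
    refine h.G.trans (h.A.one he') ?_
    exact ⟨he', h.glue_symm _ _ _ _ hR⟩
  refine ⟨i', e', he', (h.A.quot.par_eq_iff (i := i') (j := i) he' he).2 hRq, ?_⟩
  -- the bound on the compact set
  obtain ⟨B, hB⟩ : ∃ B, ∀ p ∈ K, h.A.quot.nn f w j p ≤ B := by
    obtain ⟨B, hB⟩ := hK.bddAbove_image ((hw.continuousOn_nn hf j).mono hKD)
    exact ⟨B, fun p hp => hB ⟨p, hp, rfl⟩⟩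
  have hn : 0 < h.A.quot.nn f w i' e' := hw.nn_pos hf hinj he'
  have hB1 : (0 : ℝ) < |B| + 1 := by positivity
  obtain ⟨t, ht, a, haj, haK, c, hc1, hc2⟩ := hδ (h.A.quot.nn f w i' e' / (|B| + 1))
    (div_pos hn hB1)
  refine ⟨t, ht, ?_⟩
  set z := shift (ε * t) e' with hz
  have hzD : z ∈ dom i' := h.dom_shift _ _ _ he'
  -- the connecting map
  have hloc : ∀ᶠ y in 𝓝 z, h.A.quot.R i' y j (act a i' y) := by
    filter_upwards [(h.isOpen_dom i').mem_nhds hzD] with y hy
    refine ⟨hy, a, ?_⟩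
    show h.G.R (iact a i') (act a i' y) j (act a i' y)
    rw [haj]
    have := h.act_dom a i' y hy
    rw [haj] at this
    exact h.G.refl this
  have h1 := norm_dread_eq_of_rel hf ((h.act_smooth a i' z hzD).differentiableAt (by simp)) hloc
    (w i' z)
  have h2 : w i' z = w i' e' := hshift _ _ _
  have h3 : h.A.quot.nn f w i' z = |c| * h.A.quot.nn f w j (act a i' z) := by
    unfold Glue.nn
    rw [h1, h2, hc2, map_smul, norm_smul, Real.norm_eq_abs]
  rw [h3]
  have h4 : h.A.quot.nn f w j (act a i' z) ≤ |B| := (hB _ haK).trans (le_abs_self B)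
  have h5 : |c| * h.A.quot.nn f w j (act a i' z) ≤ |c| * |B| :=
    mul_le_mul_of_nonneg_left h4 (abs_nonneg _)
  have h6 : |c| * |B| ≤ h.A.quot.nn f w i' e' / (|B| + 1) * |B| :=
    mul_le_mul_of_nonneg_right hc1.le (abs_nonneg _)
  have h7 : h.A.quot.nn f w i' e' / (|B| + 1) * |B| < h.A.quot.nn f w i' e' := by
    rw [div_mul_eq_mul_div, div_lt_iff₀ hB1]
    nlinarith
  linarith

/-- the closed 3-manifold -/
def Good.M (h : Good dom glue iact act es eu) : Closed3 :=
  haveI := h.nonempty_Q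
  { carrier := h.A.quot.Q
    top := inferInstance
    charted := inferInstance
    smooth := inferInstance
    compact := h.compactSpace
    t2 := h.t2Space
    conn := h.connectedSpace }

/-- the smooth flow -/
def Good.sflow (h : Good dom glue iact act es eu) [Nonempty h.A.quot.Q] :
    SmoothFlow h.A.quot.Q where
  map := h.A_shiftInv.flow
  smooth := h.A_shiftInv.contMDiff_flow
  map_zero := h.A_shiftInv.flow_zero
  map_add := h.A_shiftInv.flow_add

theorem Good.gen_par (h : Good dom glue iact act es eu) [Nonempty h.A.quot.Q] {i : ι} {x : E}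
    (hx : x ∈ dom i) : h.sflow.gen (h.A.quot.par i x) = h.A.quot.dpar i x ((0, 0), 1) :=
  h.A_shiftInv.gen_par hx

theorem sqrt_inner_self {n : ℕ} (u : EuclideanSpace ℝ (Fin n)) :
    Real.sqrt (inner ℝ u u) = ‖u‖ := by
  rw [real_inner_self_eq_norm_sq, Real.sqrt_sq (norm_nonneg _)]

/-- the Anosov flow -/
theorem Good.exists_anosov (h : Good dom glue iact act es eu) [Nonempty h.A.quot.Q] :
    ∃ φ : AnosovFlow h.A.quot.Q, φ.toSmoothFlow = h.sflow ∧ φ.Es = h.A.quot.line es ∧
      φ.Eu = h.A.quot.line eu := by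
  have hcomp := h.compactSpace
  have ht2 := h.t2Space
  obtain ⟨n, f, g, hf, hinj, hg⟩ := exists_metric (E := E) (M := h.A.quot.Q)
  obtain ⟨C1, hC1, a1, ha1, hs⟩ := h.lineData_s.contraction h.A_shiftInv h.es_shift hf hinj 1
    (h.pointwise h.lineData_s h.es_shift 1 h.contr_s hf hinj)
  obtain ⟨C2, hC2, a2, ha2, hu⟩ := h.lineData_u.contraction h.A_shiftInv h.eu_shift hf hinj (-1)
    (h.pointwise h.lineData_u h.eu_shift (-1) h.contr_u hf hinj)
  have hlen : ∀ (q : h.A.quot.Q) (v : TangentSpace 𝓘(ℝ, E) q), len g q v = dlen f q v := by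
    intro q v
    unfold len dlen
    rw [hg]
    exact sqrt_inner_self _
  have hdlen : ∀ (q : h.A.quot.Q) (v : TangentSpace 𝓘(ℝ, E) q), 0 ≤ dlen f q v :=
    fun q v => @norm_nonneg (EuclideanSpace ℝ (Fin n)) _ _
  refine ⟨{
    toSmoothFlow := h.sflow
    Es := h.A.quot.line es
    Eu := h.A.quot.line eu
    rank_s := h.lineData_s.finrank_line
    rank_u := h.lineData_u.finrank_line
    gen_ne := ?_
    split := ?_
    closed_s := h.lineData_s.isClosed_line
    closed_u := h.lineData_u.isClosed_line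
    inv_s := fun t q v hv => h.lineData_s.inv h.A_shiftInv h.es_shift t q v hv
    inv_u := fun t q v hv => h.lineData_u.inv h.A_shiftInv h.eu_shift t q v hv
    hyp := ?_ }, rfl, rfl, rfl⟩
  · intro q h0
    obtain ⟨i, x, hx, rfl⟩ := h.A.quot.exists_par q
    rw [h.gen_par hx] at h0
    have h1 : (((0, 0), 1) : E) = 0 := by
      apply (h.A.quot.dpar_bijective hx).1
      rw [map_zero]
      exact h0
    have h2 := congrArg Prod.snd h1
    simp at h2
  · intro q
    obtain ⟨i, x, hx, rfl⟩ := h.A.quot.exists_par q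
    rw [eq_top_iff]
    intro v _
    obtain ⟨u, rfl⟩ := (h.A.quot.dpar_bijective hx).2 v
    obtain ⟨a, b, c, rfl⟩ := h.span_top (show x ∈ dom i from hx) u
    rw [map_add, map_add]
    refine Submodule.add_mem _ (Submodule.add_mem _ ?_ ?_) ?_
    · refine Submodule.mem_sup_left (Submodule.mem_sup_left ?_)
      exact (h.lineData_s.mem_line hx).2 ⟨a, rfl⟩
    · refine Submodule.mem_sup_left (Submodule.mem_sup_right ?_)
      exact (h.lineData_u.mem_line hx).2 ⟨b, rfl⟩
    · refine Submodule.mem_sup_right ?_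
      rw [map_smul, h.gen_par hx]
      exact Submodule.smul_mem _ _ (Submodule.mem_span_singleton_self _)
  · refine ⟨g, max C1 C2, lt_max_of_lt_left hC1, min a1 a2, lt_min ha1 ha2, ?_⟩
    intro t ht q
    constructor
    · intro v hv
      have h1 := hs t ht q v hv
      rw [one_mul] at h1
      rw [hlen, hlen]
      refine h1.trans ?_
      refine mul_le_mul_of_nonneg_right ?_ (hdlen _ _)
      refine mul_le_mul (le_max_left _ _) ?_ (Real.exp_pos _).le (le_trans hC1.le (le_max_left _ _))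
      rw [Real.exp_le_exp]
      have := min_le_left a1 a2
      nlinarith
    · intro v hv
      have h1 := hu t ht q v hv
      rw [neg_one_mul] at h1
      rw [hlen, hlen]
      refine h1.trans ?_
      refine mul_le_mul_of_nonneg_right ?_ (hdlen _ _)
      refine mul_le_mul (le_max_right _ _) ?_ (Real.exp_pos _).le
        (le_trans hC1.le (le_max_left _ _))
      rw [Real.exp_le_exp]
      have := min_le_right a1 a2
      nlinarith

end Top

end Pool.Agent.Work.MP_0d206b_gt

end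
end

/-! ### from Cover.lean -/

section

/-!
# The cover data of a covering space of the intermediate manifold
-/

set_option autoImplicit false
set_option linter.unusedSectionVars false

open scoped Manifold ContDiff Topology
open Filter MP0d206b.Et

noncomputable section

namespace Pool.Agent.Work.MP_0d206b_gt

variable {ι : Type} {Γ : Type} [Group Γ] {dom : ι → Set E} {glue : ι → E → ι → E → Prop}
  {iact : Γ → ι → ι} {act : Γ → ι → E → E} {es eu : ι → E → E}

section Top

variable [TopologicalSpace ι] [DiscreteTopology ι]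

/-- the pieces of the intermediate manifold -/
def Good.parS (h : Good dom glue iact act es eu) [Nonempty h.G.Q] (i : ι) (x : dom i) : h.G.Q :=
  h.G.par i x

theorem Good.isOpenEmbedding_parS (h : Good dom glue iact act es eu) [Nonempty h.G.Q] (i : ι) :
    Topology.IsOpenEmbedding (h.parS i) := by
  refine Topology.IsOpenEmbedding.of_continuous_injective_isOpenMap ?_ ?_ ?_
  · exact continuousOn_iff_continuous_domRestrict.1 (h.G.continuousOn_par i)
  · rintro ⟨x, hx⟩ ⟨y, hy⟩ hxy
    have h1 := (h.G.par_eq_iff (i := i) (j := i) hx hy).1 hxy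
    exact Subtype.ext ((h.glue_self _ _ _).1 h1.2)
  · intro V hV
    have h1 : IsOpen (Subtype.val '' V : Set E) := (h.isOpen_dom i).isOpenMap_subtype_val V hV
    have h2 : h.parS i '' V = h.G.par i '' (Subtype.val '' V) := by
      rw [Set.image_image]
      rfl
    rw [h2]
    exact h.G.isOpen_image_par i h1 (by
      rintro _ ⟨v, -, rfl⟩
      exact v.2)

variable {N : Type} [TopologicalSpace N]

open Classical in
/-- the coordinate map of the piece `i` -/
def Good.cc (h : Good dom glue iact act es eu) [Nonempty h.G.Q] (p' : N → h.G.Q) (i : ι) (b : N) :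
    E :=
  if hb : p' b ∈ Set.range (h.parS i) then
    ((h.isOpenEmbedding_parS i).toIsEmbedding.toHomeomorph.symm ⟨p' b, hb⟩ : dom i) else 0

theorem Good.cc_of_mem (h : Good dom glue iact act es eu) [Nonempty h.G.Q] (p' : N → h.G.Q) (i : ι)
    {b : N} (hb : p' b ∈ Set.range (h.parS i)) : h.cc p' i b =
      ((h.isOpenEmbedding_parS i).toIsEmbedding.toHomeomorph.symm ⟨p' b, hb⟩ : dom i) :=
  dif_pos hb

theorem Good.cc_spec (h : Good dom glue iact act es eu) [Nonempty h.G.Q] (p' : N → h.G.Q) (i : ι)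
    {b : N} (hb : p' b ∈ Set.range (h.parS i)) :
    h.cc p' i b ∈ dom i ∧ h.G.par i (h.cc p' i b) = p' b := by
  rw [h.cc_of_mem p' i hb]
  refine ⟨Subtype.coe_prop _, ?_⟩
  have h1 := (h.isOpenEmbedding_parS i).toIsEmbedding.toHomeomorph.apply_symm_apply ⟨p' b, hb⟩
  exact congrArg Subtype.val h1

theorem Good.cc_eq (h : Good dom glue iact act es eu) [Nonempty h.G.Q] (p' : N → h.G.Q) (i : ι)
    {b : N} {x : E} (hx : x ∈ dom i) (hxb : h.G.par i x = p' b) :
    p' b ∈ Set.range (h.parS i) ∧ h.cc p' i b = x := by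
  have hb : p' b ∈ Set.range (h.parS i) := ⟨⟨x, hx⟩, hxb⟩
  refine ⟨hb, ?_⟩
  obtain ⟨h1, h2⟩ := h.cc_spec p' i hb
  have h3 := (h.G.par_eq_iff (i := i) (j := i) h1 hx).1 (h2.trans hxb.symm)
  exact (h.glue_self _ _ _).1 h3.2

/-- the cover data of a covering of the intermediate manifold -/
def Good.coverData (h : Good dom glue iact act es eu) [Nonempty h.G.Q] (p' : N → h.G.Q)
    (hp' : IsCoveringMap p') : CoverData dom glue N where
  U := fun i => p' ⁻¹' (Set.range (h.parS i))
  c := fun i => h.cc p' i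
  isOpen_U := fun i => (h.isOpenEmbedding_parS i).isOpen_range.preimage hp'.continuous
  maps := fun i b hb => (h.cc_spec p' i hb).1
  cov := by
    intro i
    have h1 : IsCoveringMap ((Set.range (h.parS i)).restrictPreimage p') :=
      hp'.restrictPreimage _
    have h2 := h1.homeomorph_comp (h.isOpenEmbedding_parS i).toIsEmbedding.toHomeomorph.symm
    convert h2 using 1
    funext b
    apply Subtype.ext
    exact h.cc_of_mem p' i b.2
  cover := by
    intro b
    obtain ⟨i, x, hx, hxb⟩ := h.G.exists_par (p' b)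
    exact ⟨i, ⟨x, hx⟩, hxb⟩
  glue_lift := by
    intro i j b e hb hR
    obtain ⟨h1, h2⟩ := h.cc_spec p' i hb
    have he : e ∈ dom j := h.glue_dom _ _ _ _ h1 hR
    have h3 : h.G.par j e = p' b := by
      rw [← h2]
      exact ((h.G.par_eq_iff (i := i) (j := j) h1 he).2 ⟨h1, hR⟩).symm
    exact h.cc_eq p' j he h3
  glue_of := by
    intro i j b hb hb'
    obtain ⟨h1, h2⟩ := h.cc_spec p' i hb
    obtain ⟨h3, h4⟩ := h.cc_spec p' j hb'
    exact ((h.G.par_eq_iff (i := i) (j := j) h1 h3).1 (h2.trans h4.symm)).2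

theorem Good.continuousAt_cc (h : Good dom glue iact act es eu) [Nonempty h.G.Q] (p' : N → h.G.Q)
    (hp' : IsCoveringMap p') {i : ι} {b : N} (hb : b ∈ (h.coverData p' hp').U i) :
    ContinuousAt ((h.coverData p' hp').c i) b := by
  set C := h.coverData p' hp' with hC
  have h1 : Continuous ((C.maps i).restrict (C.c i) (C.U i) (dom i)) := (C.cov i).continuous
  have h2 : ContinuousOn (C.c i) (C.U i) := by
    rw [continuousOn_iff_continuous_domRestrict]
    exact continuous_subtype_val.comp h1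
  exact h2.continuousAt ((C.isOpen_U i).mem_nhds hb)

end Top

end Pool.Agent.Work.MP_0d206b_gt

end
end

/-! ### from Arcs.lean -/

section

/-!
# Tangent arcs, in the manifold and in the coordinates of the pieces
-/

set_option autoImplicit false
set_option linter.unusedSectionVars false

open scoped Manifold ContDiff Topology
open Filter MP0d206b.Et

noncomputable section

namespace MP0d206b.Et

variable {ι : Type} {E : Type} [NormedAddCommGroup E] [NormedSpace ℝ E]
  {G : Glue ι E} [TopologicalSpace ι] [DiscreteTopology ι] [Nonempty G.Q]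

theorem curve_contMDiffAt_iff {n : WithTop ℕ∞} (hn : n ≤ ∞) {i : ι} {y : ℝ → E} {c : ℝ → G.Q}
    {t : ℝ} (hy : ContinuousAt y t) (hD : y t ∈ G.D i)
    (hc : ∀ᶠ s in 𝓝 t, c s = G.par i (y s)) :
    ContMDiffAt 𝓘(ℝ, ℝ) 𝓘(ℝ, E) n c t ↔ ContDiffAt ℝ n y t := by
  have h := G.isLocalDiffeomorphAt_par hD
  have hct : c t = G.par i (y t) := hc.self_of_nhds
  constructor
  · intro hcd
    rw [← contMDiffAt_iff_contDiffAt]
    have h1 : ContMDiffAt 𝓘(ℝ, E) 𝓘(ℝ, E) n h.localInverse (c t) := by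
      rw [hct]
      exact h.localInverse_contMDiffAt.of_le hn
    have h2 : ContMDiffAt 𝓘(ℝ, ℝ) 𝓘(ℝ, E) n (h.localInverse ∘ c) t := h1.comp t hcd
    refine h2.congr_of_eventuallyEq ?_
    have h3 := hy.eventually h.localInverse_eventuallyEq_left
    filter_upwards [hc, h3] with s hs hs'
    have hs'' : h.localInverse (G.par i (y s)) = y s := hs'
    rw [Function.comp_apply, hs, hs'']
  · intro hyd
    have h1 : ContMDiffAt 𝓘(ℝ, ℝ) 𝓘(ℝ, E) n (fun s => G.par i (y s)) t :=
      ((G.contMDiffAt_par hD).of_le hn).comp t hyd.contMDiffAt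
    exact h1.congr_of_eventuallyEq hc

theorem curve_mfderiv {i : ι} {y : ℝ → E} {c : ℝ → G.Q} {t : ℝ} (hy : DifferentiableAt ℝ y t)
    (hD : y t ∈ G.D i) (hc : ∀ᶠ s in 𝓝 t, c s = G.par i (y s)) :
    (mfderiv 𝓘(ℝ, ℝ) 𝓘(ℝ, E) c t (1 : ℝ) : E) = (G.dpar i (y t) (deriv y t) : E) := by
  have h1 : c =ᶠ[𝓝 t] (G.par i) ∘ y := hc
  have h2 : mfderiv 𝓘(ℝ, ℝ) 𝓘(ℝ, E) ((G.par i) ∘ y) t =
      (mfderiv 𝓘(ℝ, E) 𝓘(ℝ, E) (G.par i) (y t)).comp (mfderiv 𝓘(ℝ, ℝ) 𝓘(ℝ, E) y t) :=
    mfderiv_comp t (G.mdifferentiableAt_par hD) hy.mdifferentiableAt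
  have h3 : mfderiv 𝓘(ℝ, ℝ) 𝓘(ℝ, E) y t = fderiv ℝ y t := mfderiv_eq_fderiv
  have h4 : mfderiv 𝓘(ℝ, ℝ) 𝓘(ℝ, E) c t = mfderiv 𝓘(ℝ, ℝ) 𝓘(ℝ, E) ((G.par i) ∘ y) t :=
    h1.mfderiv_eq
  have h5 := congrArg (fun L : ℝ →L[ℝ] E => L (1 : ℝ)) (h4.trans h2)
  rw [h3] at h5
  have h6 : (fderiv ℝ y t) 1 = deriv y t := fderiv_apply_one_eq_deriv
  refine h5.trans ?_
  show (G.dpar i (y t) (fderiv ℝ y t 1) : E) = _
  rw [h6]

end MP0d206b.Et

namespace Pool.Agent.Work.MP_0d206b_gt

variable {ι : Type} {Γ : Type} [Group Γ] {dom : ι → Set E} {glue : ι → E → ι → E → Prop}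
  {iact : Γ → ι → ι} {act : Γ → ι → E → E} {es eu : ι → E → E}

section Top

variable [TopologicalSpace ι] [DiscreteTopology ι]

theorem Good.mem_plane_iff (h : Good dom glue iact act es eu) [Nonempty h.A.quot.Q] {w : ι → E → E}
    (hw : LineData h.A.quot w) {i : ι} {x : E} (hx : x ∈ dom i) (u : E) :
    h.A.quot.dpar i x u ∈ h.A.quot.line w (h.A.quot.par i x) ⊔
      Submodule.span ℝ {h.sflow.gen (h.A.quot.par i x)} ↔ u ∈ plane w i x := by
  rw [h.gen_par hx, plane, Submodule.mem_span_pair, Submodule.mem_sup]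
  constructor
  · rintro ⟨v1, hv1, v2, hv2, hv⟩
    obtain ⟨a, rfl⟩ := (hw.mem_line hx).1 hv1
    obtain ⟨b, rfl⟩ := Submodule.mem_span_singleton.1 hv2
    refine ⟨a, b, ?_⟩
    apply (h.A.quot.dpar_bijective hx).1
    rw [← hv, map_add, map_smul _ b]
  · rintro ⟨a, b, rfl⟩
    refine ⟨_, (hw.mem_line hx).2 ⟨a, rfl⟩, b • h.A.quot.dpar i x ((0, 0), 1),
      Submodule.smul_mem _ _ (Submodule.mem_span_singleton_self _), ?_⟩
    rw [map_add, map_smul _ b]

variable {N : Type} [TopologicalSpace N]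

/-- tangent arcs in the coordinates of the pieces and in the manifold -/
theorem Good.arc_iff (h : Good dom glue iact act es eu) [Nonempty h.G.Q] [Nonempty h.A.quot.Q]
    (p' : N → h.G.Q) (hp' : IsCoveringMap p') {w : ι → E → E} (hw : LineData h.A.quot w)
    (γ : ℝ → N) (hγ : Continuous γ) :
    (ContMDiff 𝓘(ℝ, ℝ) 𝓘(ℝ, E) 1 (fun t => h.A.cov (p' (γ t))) ∧
      ∀ t, (mfderiv 𝓘(ℝ, ℝ) 𝓘(ℝ, E) (fun t => h.A.cov (p' (γ t))) t (1 : ℝ) : E) ∈
        (h.A.quot.line w (h.A.cov (p' (γ t))) ⊔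
          Submodule.span ℝ {h.sflow.gen (h.A.cov (p' (γ t)))} : Submodule ℝ E)) ↔
    IsArc (h.coverData p' hp') w γ := by
  set C := h.coverData p' hp' with hC
  -- the local form of the curve
  have hloc : ∀ t i, γ t ∈ C.U i → ∀ᶠ s in 𝓝 t,
      h.A.cov (p' (γ s)) = h.A.quot.par i (C.c i (γ s)) := by
    intro t i hti
    have h1 : ∀ᶠ s in 𝓝 t, γ s ∈ C.U i := hγ.continuousAt.eventually ((C.isOpen_U i).mem_nhds hti)
    filter_upwards [h1] with s hs
    obtain ⟨h2, h3⟩ := h.cc_spec p' i hs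
    rw [← h3]
    exact h.A.cov_par h2
  have hcont : ∀ t i, γ t ∈ C.U i → ContinuousAt (fun s => C.c i (γ s)) t := fun t i hti =>
    ContinuousAt.comp (f := γ) (g := C.c i) (h.continuousAt_cc p' hp' hti) hγ.continuousAt
  have hdom : ∀ t i, γ t ∈ C.U i → C.c i (γ t) ∈ h.A.quot.D i := fun t i hti => C.maps i hti
  have hmem : ∀ t i, γ t ∈ C.U i → ∀ u : E,
      ((h.A.quot.dpar i (C.c i (γ t)) u : E) ∈
        (h.A.quot.line w (h.A.cov (p' (γ t))) ⊔
          Submodule.span ℝ {h.sflow.gen (h.A.cov (p' (γ t)))} : Submodule ℝ E)) ↔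
      u ∈ plane w i (C.c i (γ t)) := by
    intro t i hti u
    have h1 : h.A.cov (p' (γ t)) = h.A.quot.par i (C.c i (γ t)) := (hloc t i hti).self_of_nhds
    have h2 : ∀ q', q' = h.A.quot.par i (C.c i (γ t)) →
        (((h.A.quot.dpar i (C.c i (γ t)) u : E) ∈
        (h.A.quot.line w q' ⊔ Submodule.span ℝ {h.sflow.gen q'} : Submodule ℝ E)) ↔
      u ∈ plane w i (C.c i (γ t))) := by
      rintro q' rfl
      exact h.mem_plane_iff hw (hdom t i hti) u
    exact h2 _ h1
  constructor
  · rintro ⟨h1, h2⟩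
    have hsm : ∀ t i, γ t ∈ C.U i → ContDiffAt ℝ 1 (C.c i ∘ γ) t := fun t i hti =>
      (curve_contMDiffAt_iff (by norm_num) (hcont t i hti) (hdom t i hti) (hloc t i hti)).1
        h1.contMDiffAt
    refine ⟨hγ, hsm, ?_⟩
    intro t i hti
    have h3 := curve_mfderiv (G := h.A.quot) ((hsm t i hti).differentiableAt (by norm_num))
      (hdom t i hti) (hloc t i hti)
    have h4 := h2 t
    rw [h3] at h4
    exact (hmem t i hti _).1 h4
  · intro hA
    refine ⟨?_, ?_⟩
    · intro t
      obtain ⟨i, hti⟩ := C.cover (γ t)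
      exact (curve_contMDiffAt_iff (by norm_num) (hcont t i hti) (hdom t i hti)
        (hloc t i hti)).2 (hA.smooth t i hti)
    · intro t
      obtain ⟨i, hti⟩ := C.cover (γ t)
      have h3 := curve_mfderiv (G := h.A.quot) ((hA.smooth t i hti).differentiableAt (by norm_num))
        (hdom t i hti) (hloc t i hti)
      rw [h3]
      exact (hmem t i hti _).2 (hA.tang t i hti)

end Top

end Pool.Agent.Work.MP_0d206b_gt

end
end

/-! ### from Realize.lean -/

section

/-!
# MP_0d206b_gt, module M/H: good gluing data are realised by Anosov flows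
-/

set_option autoImplicit false

open scoped Manifold ContDiff Topology
open Filter MP0d206b.Et

noncomputable section

namespace Pool.Agent.Work.MP_0d206b_gt

theorem goodN {M : Closed3} (N : UnivCover M) : GoodN N.carrier := by
  have h1 : LocallyPathConnectedSpace M := ChartedSpace.locallyPathConnectedSpace E M
  have h2 : LocallyPathConnectedSpace N.carrier := locallyPathConnectedSpace_of_localHomeo N.isCovering.isLocalHomeomorph
  have h3 : T2Space N.carrier := t2Space_of_covering N.isCovering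
  have h4 : SecondCountableTopology M := ChartedSpace.secondCountable_of_sigmaCompact E M
  have h5 : SecondCountableTopology N.carrier := secondCountable_of_covering N.isCovering
  exact { N.simply, h2, h3, h5 with }

theorem Good.leafRel_eq {ι : Type} {Γ : Type} [Group Γ] {dom : ι → Set E} {glue : ι → E → ι → E → Prop}
    {iact : Γ → ι → ι} {act : Γ → ι → E → E} {es eu : ι → E → E} [TopologicalSpace ι] [DiscreteTopology ι]
    (h : Good dom glue iact act es eu) [Nonempty h.G.Q] [Nonempty h.A.quot.Q] (N : UnivCover h.A.quot.Q)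
    (F : N.carrier → h.G.Q) (hcov : IsCoveringMap F) (hF : N.proj = fun b => h.A.cov (F b))
    {w : ι → E → E} (hw : LineData h.A.quot w)
    (P : ∀ x : h.A.quot.Q, Submodule ℝ (TangentSpace 𝓘(ℝ, E) x))
    (hP : ∀ x, P x = h.A.quot.line w x ⊔ Submodule.span ℝ {h.sflow.gen x}) :
    leafRel N P = leafSetoid (h.coverData F hcov) w := by
  have key : ∀ (pr : N.carrier → h.A.quot.Q), pr = (fun b => h.A.cov (F b)) → ∀ c : ℝ → N.carrier, Continuous c →
      ((ContMDiff 𝓘(ℝ, ℝ) 𝓘(ℝ, E) 1 (fun t => pr (c t)) ∧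
        ∀ t, (mfderiv 𝓘(ℝ, ℝ) 𝓘(ℝ, E) (fun t => pr (c t)) t (1 : ℝ) : E) ∈ P (pr (c t))) ↔
        IsArc (h.coverData F hcov) w c) := by
    rintro _ rfl c hc
    rw [← h.arc_iff F hcov hw c hc]
    refine and_congr Iff.rfl (forall_congr' fun t => ?_)
    rw [hP]
    exact Iff.rfl
  unfold leafRel leafSetoid
  congr 1
  funext a b
  refine propext ⟨?_, ?_⟩
  · rintro ⟨c, hc, h0, h1, h2, h3⟩
    exact ⟨c, (key N.proj hF c hc).1 ⟨h2, h3⟩, h0, h1⟩
  · rintro ⟨c, hc, h0, h1⟩
    obtain ⟨h2, h3⟩ := (key N.proj hF c hc.cont).2 hc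
    exact ⟨c, hc.cont, h0, h1, h2, h3⟩

theorem stRealize : StRealize := by
  intro ι Γ _ dom glue iact act es eu h
  let _ : TopologicalSpace ι := ⊥
  have : DiscreteTopology ι := ⟨rfl⟩
  have := h.nonempty_Q
  obtain ⟨φ, hφ, hs, hu⟩ := h.exists_anosov
  refine ⟨h.M, φ, fun N => ?_⟩
  have hN : GoodN N.carrier := goodN N
  refine ⟨hN, ?_⟩
  have hM : LocallyPathConnectedSpace h.M := ChartedSpace.locallyPathConnectedSpace E h.M
  let b₀ : N.carrier := Classical.choice inferInstance
  obtain ⟨x₀, hx₀⟩ := h.A.cov_surjective (N.proj b₀)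
  obtain ⟨F, ⟨-, hF⟩, -⟩ := h.A.isCoveringMap_cov.existsUnique_continuousMap_lifts
    (⟨N.proj, N.isCovering.continuous⟩ : C(N.carrier, h.M)) b₀ x₀ hx₀
  have hF' : N.proj = fun b => h.A.cov (F b) := funext fun b => (congrFun hF b).symm
  have hcov : IsCoveringMap F := by
    have : LocallyConnectedSpace h.A.quot.Q := inferInstanceAs (LocallyConnectedSpace h.M)
    refine isCoveringMap_lift h.A.isCoveringMap_cov F.continuous ?_
    rw [← hF']
    exact N.isCovering
  refine ⟨h.coverData F hcov, ?_, ?_⟩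
  · refine h.leafRel_eq N F hcov hF' h.lineData_s _ fun x => ?_
    show φ.Es x ⊔ Submodule.span ℝ {φ.toSmoothFlow.gen x} = _
    rw [hφ, hs]
  · refine h.leafRel_eq N F hcov hF' h.lineData_u _ fun x => ?_
    show φ.Eu x ⊔ Submodule.span ℝ {φ.toSmoothFlow.gen x} = _
    rw [hφ, hu]

end Pool.Agent.Work.MP_0d206b_gt

end
end
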