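import Mathlib

/-! MP_0d206b_gt: manifolds glued from open subsets of a normed space (definitions, flow, group action) -/

/-! ### from Defs.lean -/

section

/-!
# Etale quotients: manifolds glued from open subsets of a normed space

`D i` (`i` in a finite set `ι`) are open subsets of the normed space `E` and `R i x j y` is an
equivalence relation on the disjoint union of the `D i`, which is locally the graph of smooth maps.
The quotient `Q` is a smooth manifold.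
-/

set_option autoImplicit false
set_option linter.unusedSectionVars false

open scoped Manifold ContDiff Topology

namespace MP0d206b.Et

/-- gluing data -/
structure Glue (ι : Type) (E : Type) [NormedAddCommGroup E] [NormedSpace ℝ E] where
  /-- the pieces -/
  D : ι → Set E
  /-- the relation: the point `x` of the piece `i` is glued to the point `y` of the piece `j` -/
  R : ι → E → ι → E → Prop
  isOpen : ∀ i, IsOpen (D i)
  memL : ∀ {i x j y}, R i x j y → x ∈ D i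
  refl : ∀ {i x}, x ∈ D i → R i x i x
  symm : ∀ {i x j y}, R i x j y → R j y i x
  trans : ∀ {i x j y k z}, R i x j y → R j y k z → R i x k z
  /-- locally the relation contains the graph of a smooth map -/
  loc : ∀ {i x j y}, R i x j y → ∃ g : E → E, ContDiffAt ℝ ∞ g x ∧ g x = y ∧
    ∀ᶠ z in 𝓝 x, R i z j (g z)
  /-- nearby different points of a piece are not related -/
  disc : ∀ {i x}, x ∈ D i → ∃ W ∈ 𝓝 x, ∀ z ∈ W, ∀ w ∈ W, R i z i w → z = w

variable {ι : Type} {E : Type} [NormedAddCommGroup E] [NormedSpace ℝ E] (G : Glue ι E)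

theorem Glue.memR {i : ι} {x : E} {j : ι} {y : E} (h : G.R i x j y) : y ∈ G.D j :=
  G.memL (G.symm h)

/-- the disjoint union of the pieces -/
def Glue.U : Type := {p : ι × E // p.2 ∈ G.D p.1}

/-- a point of the disjoint union -/
def Glue.pt {i : ι} {x : E} (h : x ∈ G.D i) : G.U := ⟨(i, x), h⟩

/-- the equivalence relation on the disjoint union -/
def Glue.setoid : Setoid G.U where
  r := fun p q => G.R p.1.1 p.1.2 q.1.1 q.1.2
  iseqv := ⟨fun p => G.refl p.2, fun h => G.symm h, fun h h' => G.trans h h'⟩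

/-- the quotient space -/
def Glue.Q : Type := Quotient G.setoid

/-- the quotient map -/
def Glue.proj (p : G.U) : G.Q := Quotient.mk G.setoid p

instance Glue.topU [TopologicalSpace ι] : TopologicalSpace G.U :=
  inferInstanceAs (TopologicalSpace {p : ι × E // p.2 ∈ G.D p.1})

instance Glue.topQ [TopologicalSpace ι] : TopologicalSpace G.Q :=
  inferInstanceAs (TopologicalSpace (Quotient G.setoid))

open Classical in
/-- the parametrization of the quotient by the piece `i` (with an arbitrary value outside `D i`) -/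
noncomputable def Glue.par [Nonempty G.Q] (i : ι) (x : E) : G.Q :=
  if h : x ∈ G.D i then G.proj (G.pt h) else Classical.arbitrary G.Q

theorem Glue.par_of_mem [Nonempty G.Q] {i : ι} {x : E} (h : x ∈ G.D i) :
    G.par i x = G.proj (G.pt h) := dif_pos h

theorem Glue.proj_eq_iff {p q : G.U} : G.proj p = G.proj q ↔ G.R p.1.1 p.1.2 q.1.1 q.1.2 :=
  Quotient.eq (r := G.setoid)

theorem Glue.par_eq_iff [Nonempty G.Q] {i j : ι} {x y : E} (hx : x ∈ G.D i) (hy : y ∈ G.D j) :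
    G.par i x = G.par j y ↔ G.R i x j y := by
  rw [G.par_of_mem hx, G.par_of_mem hy]
  exact G.proj_eq_iff

theorem Glue.exists_par [Nonempty G.Q] (q : G.Q) : ∃ i, ∃ x ∈ G.D i, G.par i x = q := by
  obtain ⟨⟨⟨i, x⟩, h⟩, rfl⟩ := Quotient.exists_rep q
  exact ⟨i, x, h, G.par_of_mem h⟩

/-- the connecting map is unique -/
theorem Glue.eq_of_loc {i j : ι} {x : E} {g : E → E} (hx : G.R i x j (g x))
    (hg : ContinuousAt g x) (hR : ∀ᶠ z in 𝓝 x, G.R i z j (g z)) {h : E → E}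
    (hh : ContinuousAt h x) (hhx : h x = g x) (hR' : ∀ᶠ z in 𝓝 x, G.R i z j (h z)) :
    ∀ᶠ z in 𝓝 x, h z = g z := by
  obtain ⟨W, hW, hinj⟩ := G.disc (G.memR hx)
  have h1 : ∀ᶠ z in 𝓝 x, g z ∈ W := hg.eventually hW
  have h2 : ∀ᶠ z in 𝓝 x, h z ∈ W := hh.eventually (by rw [hhx]; exact hW)
  filter_upwards [h1, h2, hR, hR'] with z h1 h2 h3 h4
  exact hinj _ h2 _ h1 (G.trans (G.symm h4) h3)

section Top

variable [TopologicalSpace ι] [DiscreteTopology ι]

theorem Glue.continuous_proj : Continuous G.proj := continuous_quotient_mk'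

theorem Glue.nhds_U (p : G.U) : 𝓝 p = Filter.comap (fun q : G.U => q.1) (𝓝 p.1) :=
  nhds_subtype (s := {p : ι × E | p.2 ∈ G.D p.1}) p

theorem Glue.continuous_pt (i : ι) :
    Continuous (fun y : {y // y ∈ G.D i} => G.pt (i := i) (x := y.1) y.2) :=
  Continuous.subtype_mk (Continuous.prodMk continuous_const continuous_subtype_val) _

theorem Glue.eventually_U {p : G.U} {P : G.U → Prop} (h : ∀ᶠ z in 𝓝 p.1.2, ∀ hz : z ∈ G.D p.1.1,
    P (G.pt hz)) : ∀ᶠ q in 𝓝 p, P q := by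
  have h1 : ∀ᶠ q : ι × E in 𝓝 p.1, ∀ hq : q.2 ∈ G.D q.1, P (G.pt hq) := by
    rw [nhds_prod_eq, nhds_discrete, Filter.pure_prod, Filter.eventually_map]
    exact h
  rw [G.nhds_U]
  refine Filter.eventually_comap.mpr ?_
  filter_upwards [h1] with q hq a ha
  subst ha
  exact hq a.2

theorem Glue.isOpenMap_proj : IsOpenMap G.proj := by
  intro W hW
  have h1 : IsOpen (G.proj ⁻¹' (G.proj '' W)) := by
    rw [isOpen_iff_mem_nhds]
    rintro q ⟨p, hp, hpq⟩
    have hR : G.R q.1.1 q.1.2 p.1.1 p.1.2 := G.proj_eq_iff.1 hpq.symm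
    obtain ⟨g, hg, hgx, hloc⟩ := G.loc hR
    refine G.eventually_U ?_
    -- the points `(i, g z)` lie in `W`
    have h2 : ∀ᶠ y in 𝓝 p.1.2, ∀ hy : y ∈ G.D p.1.1, G.pt hy ∈ W := by
      have h3 : ∀ᶠ q' in 𝓝 p, q' ∈ W := hW.mem_nhds hp
      have h4 : Filter.Tendsto (fun y : {y // y ∈ G.D p.1.1} => G.pt (i := p.1.1) (x := y.1) y.2)
          (𝓝 ⟨p.1.2, p.2⟩) (𝓝 p) := (G.continuous_pt p.1.1).tendsto _
      have h5 := h4.eventually h3
      rw [nhds_subtype, Filter.eventually_comap] at h5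
      filter_upwards [h5] with y hy hy'
      exact hy ⟨y, hy'⟩ rfl
    have h6 : ∀ᶠ z in 𝓝 q.1.2, ∀ hy : g z ∈ G.D p.1.1, G.pt hy ∈ W := by
      have := hg.continuousAt.tendsto
      rw [hgx] at this
      exact this.eventually h2
    filter_upwards [h6, hloc] with z h7 h8 hz
    exact ⟨G.pt (G.memR h8), h7 _, (G.proj_eq_iff (p := G.pt hz) (q := G.pt (G.memR h8))
      |>.2 h8).symm⟩
  exact h1

theorem Glue.isOpenQuotientMap_proj : IsOpenQuotientMap G.proj :=
  ⟨Quotient.mk_surjective, G.continuous_proj, G.isOpenMap_proj⟩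

theorem Glue.continuousOn_par [Nonempty G.Q] (i : ι) : ContinuousOn (G.par i) (G.D i) := by
  rw [continuousOn_iff_continuous_domRestrict]
  have h2 := G.continuous_proj.comp (G.continuous_pt i)
  refine h2.congr fun y => ?_
  exact (G.par_of_mem y.2).symm

theorem Glue.isOpen_image_par [Nonempty G.Q] (i : ι) {W : Set E} (hW : IsOpen W)
    (hWD : W ⊆ G.D i) : IsOpen (G.par i '' W) := by
  have h1 : IsOpen {q : G.U | q.1.1 = i ∧ q.1.2 ∈ W} := by
    have h2 : IsOpen {q : ι × E | q.1 = i ∧ q.2 ∈ W} := by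
      have : {q : ι × E | q.1 = i ∧ q.2 ∈ W} = ({i} : Set ι) ×ˢ W := by
        ext q
        simp
      rw [this]
      exact (isOpen_discrete _).prod hW
    exact h2.preimage continuous_subtype_val
  have h3 : G.par i '' W = G.proj '' {q : G.U | q.1.1 = i ∧ q.1.2 ∈ W} := by
    ext a
    constructor
    · rintro ⟨x, hx, rfl⟩
      exact ⟨G.pt (hWD hx), ⟨rfl, hx⟩, (G.par_of_mem (hWD hx)).symm⟩
    · rintro ⟨⟨⟨j, x⟩, hx⟩, ⟨hj, hxW⟩, rfl⟩
      simp only at hj hxW
      subst hj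
      exact ⟨x, hxW, G.par_of_mem hx⟩
  rw [h3]
  exact G.isOpenMap_proj _ h1

/-- the local homeomorphisms given by the parametrizations -/
def Glue.IsPar [Nonempty G.Q] (e : OpenPartialHomeomorph E G.Q) : Prop :=
  ∃ i, e.source ⊆ G.D i ∧ ∀ x ∈ e.source, e x = G.par i x

theorem Glue.exists_isPar [Nonempty G.Q] {i : ι} {x : E} (hx : x ∈ G.D i) :
    ∃ e : OpenPartialHomeomorph E G.Q, x ∈ e.source ∧ e.source ⊆ G.D i ∧
      ∀ z, e z = G.par i z := by
  obtain ⟨W, hW, hinj⟩ := G.disc hx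
  obtain ⟨W', hW'W, hW'o, hxW'⟩ := mem_nhds_iff.1 (Filter.inter_mem hW ((G.isOpen i).mem_nhds hx))
  have hsub : W' ⊆ G.D i := fun z hz => (hW'W hz).2
  have hinj' : Set.InjOn (G.par i) W' := by
    intro z hz w hw h
    exact hinj z (hW'W hz).1 w (hW'W hw).1 ((G.par_eq_iff (hsub hz) (hsub hw)).1 h)
  have hcont : ContinuousOn (G.par i) W' := (G.continuousOn_par i).mono hsub
  have hopen : IsOpenMap (W'.domRestrict (G.par i)) := by
    intro V hV
    have h1 : IsOpen (Subtype.val '' V : Set E) := hW'o.isOpenMap_subtype_val V hV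
    have h2 : W'.domRestrict (G.par i) '' V = G.par i '' (Subtype.val '' V) := by
      rw [Set.image_image]
      rfl
    rw [h2]
    exact G.isOpen_image_par i h1 (by
      rintro _ ⟨v, -, rfl⟩
      exact hsub v.2)
  refine ⟨OpenPartialHomeomorph.ofContinuousOpenRestrict (hinj'.toPartialEquiv _ _) hcont hopen
    hW'o, hxW', hsub, fun z => rfl⟩

theorem Glue.exists_isPar' [Nonempty G.Q] (q : G.Q) :
    ∃ e : OpenPartialHomeomorph E G.Q, q ∈ e.target ∧ G.IsPar e := by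
  obtain ⟨i, x, hx, rfl⟩ := G.exists_par q
  obtain ⟨e, h1, h2, h3⟩ := G.exists_isPar hx
  refine ⟨e, ?_, i, h2, fun z _ => h3 z⟩
  rw [← h3 x]
  exact e.map_source h1

/-- the atlas -/
noncomputable instance Glue.chartedSpace [Nonempty G.Q] : ChartedSpace E G.Q where
  atlas := {e | G.IsPar e.symm}
  chartAt := fun q => (G.exists_isPar' q).choose.symm
  mem_chart_source := fun q => (G.exists_isPar' q).choose_spec.1
  chart_mem_atlas := fun q => by
    rw [Set.mem_ofPred_eq, OpenPartialHomeomorph.symm_symm]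
    exact (G.exists_isPar' q).choose_spec.2

/-- the transition map between two parametrizations agrees with any connecting map -/
theorem Glue.trans_eventually [Nonempty G.Q] {e e' : OpenPartialHomeomorph E G.Q} {i j : ι}
    (hi : e.source ⊆ G.D i) (hi' : ∀ x ∈ e.source, e x = G.par i x) (hj : e'.source ⊆ G.D j)
    (hj' : ∀ x ∈ e'.source, e' x = G.par j x) {x : E} (hx : x ∈ e.source)
    (hx' : e x ∈ e'.target) :
    ∃ g : E → E, ContDiffAt ℝ ∞ g x ∧ g x = e'.symm (e x) ∧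
      ∀ᶠ z in 𝓝 x, e'.symm (e z) = g z := by
  set y := e'.symm (e x) with hy
  have hys : y ∈ e'.source := e'.map_target hx'
  have hR : G.R i x j y := by
    rw [← G.par_eq_iff (hi hx) (hj hys), ← hi' x hx, ← hj' y hys, hy, e'.right_inv hx']
  obtain ⟨g, hg, hgx, hloc⟩ := G.loc hR
  refine ⟨g, hg, hgx, ?_⟩
  have hc : ContinuousAt (fun z => e'.symm (e z)) x :=
    ContinuousAt.comp (e'.continuousAt_symm hx') (e.continuousAt hx)
  have h1 : ∀ᶠ z in 𝓝 x, G.R i z j (e'.symm (e z)) := by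
    have h2 : ∀ᶠ z in 𝓝 x, z ∈ e.source := e.open_source.mem_nhds hx
    have h3 : ∀ᶠ z in 𝓝 x, e z ∈ e'.target :=
      (e.continuousAt hx).eventually (e'.open_target.mem_nhds hx')
    filter_upwards [h2, h3] with z h2 h3
    have h4 := e'.map_target h3
    rw [← G.par_eq_iff (hi h2) (hj h4), ← hi' z h2, ← hj' _ h4, e'.right_inv h3]
  exact G.eq_of_loc (by rw [hgx]; exact hR) hg.continuousAt hloc hc (by rw [hgx]) h1

instance Glue.isManifold [Nonempty G.Q] : IsManifold 𝓘(ℝ, E) ∞ G.Q := by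
  refine isManifold_of_contDiffOn _ _ _ ?_
  rintro e e' ⟨i, hi, hi'⟩ ⟨j, hj, hj'⟩
  intro x hx
  simp only [modelWithCornersSelf_coe, modelWithCornersSelf_coe_symm, Function.comp_id,
    Function.id_comp, Set.preimage_id_eq, id, Set.range_id, Set.inter_univ] at hx ⊢
  rw [OpenPartialHomeomorph.trans_source] at hx
  obtain ⟨g, hg, -, hgz⟩ := G.trans_eventually (e := e.symm) (e' := e'.symm) hi hi' hj hj' hx.1 hx.2
  refine ContDiffAt.contDiffWithinAt ?_
  refine hg.congr_of_eventuallyEq ?_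
  filter_upwards [hgz] with z hz
  exact hz

end Top

end MP0d206b.Et

end

/-! ### from Local.lean -/

section

/-!
# Etale quotients: the parametrizations are local diffeomorphisms
-/

set_option autoImplicit false
set_option linter.unusedSectionVars false

open scoped Manifold ContDiff Topology

namespace MP0d206b.Et

variable {ι : Type} {E : Type} [NormedAddCommGroup E] [NormedSpace ℝ E] (G : Glue ι E)
variable [TopologicalSpace ι] [DiscreteTopology ι] [Nonempty G.Q]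

theorem Glue.mem_maximalAtlas {e : OpenPartialHomeomorph E G.Q} (he : G.IsPar e) :
    e.symm ∈ IsManifold.maximalAtlas 𝓘(ℝ, E) ∞ G.Q := by
  apply IsManifold.subset_maximalAtlas
  show G.IsPar e.symm.symm
  rw [OpenPartialHomeomorph.symm_symm]
  exact he

theorem Glue.isLocalDiffeomorphAt_par {i : ι} {x : E} (hx : x ∈ G.D i) :
    IsLocalDiffeomorphAt 𝓘(ℝ, E) 𝓘(ℝ, E) ∞ (G.par i) x := by
  obtain ⟨e, hxe, heD, he⟩ := G.exists_isPar hx
  have hpar : G.IsPar e := ⟨i, heD, fun z _ => he z⟩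
  have h1 : ContMDiffOn 𝓘(ℝ, E) 𝓘(ℝ, E) ∞ e e.source :=
    contMDiffOn_symm_of_mem_maximalAtlas (G.mem_maximalAtlas hpar)
  have h2 : ContMDiffOn 𝓘(ℝ, E) 𝓘(ℝ, E) ∞ e.symm e.target :=
    contMDiffOn_of_mem_maximalAtlas (G.mem_maximalAtlas hpar)
  exact ⟨⟨e.toPartialEquiv, e.open_source, e.open_target, h1, h2⟩, hxe, fun z _ => (he z).symm⟩

theorem Glue.contMDiffAt_par {i : ι} {x : E} (hx : x ∈ G.D i) :
    ContMDiffAt 𝓘(ℝ, E) 𝓘(ℝ, E) ∞ (G.par i) x :=
  (G.isLocalDiffeomorphAt_par hx).contMDiffAt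

theorem Glue.continuousAt_par {i : ι} {x : E} (hx : x ∈ G.D i) : ContinuousAt (G.par i) x :=
  (G.contMDiffAt_par hx).continuousAt

theorem Glue.mdifferentiableAt_par {i : ι} {x : E} (hx : x ∈ G.D i) :
    MDifferentiableAt 𝓘(ℝ, E) 𝓘(ℝ, E) (G.par i) x :=
  (G.isLocalDiffeomorphAt_par hx).mdifferentiableAt (by simp)

/-- the derivative of the parametrization -/
noncomputable def Glue.dpar (i : ι) (x : E) : E →L[ℝ] TangentSpace 𝓘(ℝ, E) (G.par i x) :=
  mfderiv 𝓘(ℝ, E) 𝓘(ℝ, E) (G.par i) x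

theorem Glue.dpar_bijective {i : ι} {x : E} (hx : x ∈ G.D i) :
    Function.Bijective (G.dpar i x) :=
  ((G.isLocalDiffeomorphAt_par hx).mfderivToContinuousLinearEquiv (by simp)).bijective

/-- smoothness of a map from the quotient can be checked in the parametrizations -/
theorem Glue.contMDiffAt_of_par {E' : Type} [NormedAddCommGroup E'] [NormedSpace ℝ E']
    {H' : Type} [TopologicalSpace H'] {I' : ModelWithCorners ℝ E' H'} {N : Type}
    [TopologicalSpace N] [ChartedSpace H' N] {n : WithTop ℕ∞} (hn : n ≤ ∞) {f : G.Q → N} {i : ι}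
    {x : E} (hx : x ∈ G.D i) (hf : ContMDiffAt 𝓘(ℝ, E) I' n (fun z => f (G.par i z)) x) :
    ContMDiffAt 𝓘(ℝ, E) I' n f (G.par i x) := by
  have h := G.isLocalDiffeomorphAt_par hx
  have h1 : ContMDiffAt 𝓘(ℝ, E) 𝓘(ℝ, E) n h.localInverse (G.par i x) :=
    h.localInverse_contMDiffAt.of_le hn
  have h2 : h.localInverse (G.par i x) = x := h.localInverse_left_inv h.localInverse_mem_target
  have h3 : ContMDiffAt 𝓘(ℝ, E) I' n ((fun z => f (G.par i z)) ∘ h.localInverse)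
      (G.par i x) := by
    refine ContMDiffAt.comp _ ?_ h1
    rw [h2]
    exact hf
  refine h3.congr_of_eventuallyEq ?_
  filter_upwards [h.localInverse_eventuallyEq_right] with q hq
  have hq' : G.par i (h.localInverse q) = q := hq
  simp only [Function.comp_apply, hq']

/-- the derivatives of two parametrizations are related by the derivative of the connecting map -/
theorem Glue.dpar_eq {i j : ι} {x y : E} {g : E → E} (hg : DifferentiableAt ℝ g x)
    (hgx : g x = y) (hR : ∀ᶠ z in 𝓝 x, G.R i z j (g z)) (v : E) :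
    (G.dpar i x v : E) = (G.dpar j y (fderiv ℝ g x v) : E) := by
  subst hgx
  have hx : G.R i x j (g x) := hR.self_of_nhds
  have h1 : G.par i =ᶠ[𝓝 x] (G.par j) ∘ g := by
    filter_upwards [hR] with z hz
    exact (G.par_eq_iff (G.memL hz) (G.memR hz)).2 hz
  have h2 : mfderiv 𝓘(ℝ, E) 𝓘(ℝ, E) (G.par i) x = mfderiv 𝓘(ℝ, E) 𝓘(ℝ, E) ((G.par j) ∘ g) x :=
    h1.mfderiv_eq
  have h3 : mfderiv 𝓘(ℝ, E) 𝓘(ℝ, E) ((G.par j) ∘ g) x
      = (mfderiv 𝓘(ℝ, E) 𝓘(ℝ, E) (G.par j) (g x)).comp (mfderiv 𝓘(ℝ, E) 𝓘(ℝ, E) g x) :=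
    mfderiv_comp x (G.mdifferentiableAt_par (G.memR hx)) hg.mdifferentiableAt
  have h4 : mfderiv 𝓘(ℝ, E) 𝓘(ℝ, E) g x = fderiv ℝ g x := mfderiv_eq_fderiv
  unfold Glue.dpar
  rw [h2, h3, h4]
  rfl

end MP0d206b.Et

end

/-! ### from Flow.lean -/

section

/-!
# Etale quotients: the translation flow
-/

set_option autoImplicit false
set_option linter.unusedSectionVars false

open scoped Manifold ContDiff Topology

namespace MP0d206b.Et

variable {ι : Type} {P : Type} [NormedAddCommGroup P] [NormedSpace ℝ P]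

/-- the shift of `P × ℝ` in the direction of the last factor -/
def shift (s : ℝ) (x : P × ℝ) : P × ℝ := (x.1, x.2 + s)

@[simp] theorem shift_fst (s : ℝ) (x : P × ℝ) : (shift s x).1 = x.1 := rfl

@[simp] theorem shift_snd (s : ℝ) (x : P × ℝ) : (shift s x).2 = x.2 + s := rfl

@[simp] theorem shift_zero (x : P × ℝ) : shift 0 x = x := by
  simp [shift]

theorem shift_shift (s t : ℝ) (x : P × ℝ) : shift s (shift t x) = shift (s + t) x := by
  simp only [shift]
  congr 1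
  ring

theorem shift_eq_add (s : ℝ) (x : P × ℝ) : shift s x = x + (0, s) := by
  ext <;> simp [shift]

theorem contDiff_shift : ContDiff ℝ ∞ (fun p : ℝ × (P × ℝ) => shift p.1 p.2) := by
  unfold shift
  fun_prop

theorem contMDiff_shift : ContMDiff (𝓘(ℝ, ℝ).prod 𝓘(ℝ, P × ℝ)) 𝓘(ℝ, P × ℝ) ∞
    (fun p : ℝ × (P × ℝ) => shift p.1 p.2) := by
  have h1 : ContMDiff (𝓘(ℝ, ℝ).prod 𝓘(ℝ, P × ℝ)) 𝓘(ℝ, P) ∞
      (fun p : ℝ × (P × ℝ) => p.2.1) :=
    (ContinuousLinearMap.fst ℝ P ℝ).contMDiff.comp contMDiff_snd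
  have h2 : ContMDiff (𝓘(ℝ, ℝ).prod 𝓘(ℝ, P × ℝ)) 𝓘(ℝ, ℝ) ∞
      (fun p : ℝ × (P × ℝ) => p.2.2 + p.1) :=
    ((ContinuousLinearMap.snd ℝ P ℝ).contMDiff.comp contMDiff_snd).add contMDiff_fst
  exact h1.prodMk_space h2

theorem hasFDerivAt_shift (s : ℝ) (x : P × ℝ) :
    HasFDerivAt (shift s) (ContinuousLinearMap.id ℝ (P × ℝ)) x := by
  have h : shift s = fun x : P × ℝ => x + (0, s) := by
    funext x
    exact shift_eq_add s x
  rw [h]
  exact (hasFDerivAt_id x).add_const _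

/-- a gluing datum whose relation is invariant under the shift -/
def Glue.ShiftInv (G : Glue ι (P × ℝ)) : Prop :=
  ∀ (s : ℝ) {i : ι} {x : P × ℝ} {j : ι} {y : P × ℝ}, G.R i x j y → G.R i (shift s x) j (shift s y)

variable {G : Glue ι (P × ℝ)} (hG : G.ShiftInv)

include hG in
theorem Glue.ShiftInv.mem (s : ℝ) {i : ι} {x : P × ℝ} (hx : x ∈ G.D i) : shift s x ∈ G.D i :=
  G.memL (hG s (G.refl hx))

/-- the flow on the quotient -/
noncomputable def Glue.ShiftInv.flow (s : ℝ) : G.Q → G.Q :=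
  Quotient.map (sa := G.setoid) (sb := G.setoid)
    (fun p => ⟨(p.1.1, shift s p.1.2), hG.mem s p.2⟩) (fun _ _ h => hG s h)

theorem Glue.ShiftInv.flow_proj (s : ℝ) (p : G.U) :
    hG.flow s (G.proj p) = G.proj ⟨(p.1.1, shift s p.1.2), hG.mem s p.2⟩ := rfl

theorem Glue.ShiftInv.flow_par [Nonempty G.Q] (s : ℝ) {i : ι} {x : P × ℝ} (hx : x ∈ G.D i) :
    hG.flow s (G.par i x) = G.par i (shift s x) := by
  rw [G.par_of_mem hx, G.par_of_mem (hG.mem s hx)]
  rfl

theorem Glue.ShiftInv.flow_zero [Nonempty G.Q] (q : G.Q) : hG.flow 0 q = q := by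
  obtain ⟨i, x, hx, rfl⟩ := G.exists_par q
  rw [hG.flow_par 0 hx, shift_zero]

theorem Glue.ShiftInv.flow_add [Nonempty G.Q] (s t : ℝ) (q : G.Q) :
    hG.flow (s + t) q = hG.flow s (hG.flow t q) := by
  obtain ⟨i, x, hx, rfl⟩ := G.exists_par q
  rw [hG.flow_par _ hx, hG.flow_par _ hx, hG.flow_par _ (hG.mem t hx), shift_shift]

section Top

variable [TopologicalSpace ι] [DiscreteTopology ι] [Nonempty G.Q]

/-- the flow is smooth -/
theorem Glue.ShiftInv.contMDiff_flow :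
    ContMDiff (𝓘(ℝ, ℝ).prod 𝓘(ℝ, P × ℝ)) 𝓘(ℝ, P × ℝ) ∞
      (fun p : ℝ × G.Q => hG.flow p.1 p.2) := by
  rintro ⟨s, q⟩
  obtain ⟨i, x, hx, rfl⟩ := G.exists_par q
  have h := G.isLocalDiffeomorphAt_par hx
  have h2 : h.localInverse (G.par i x) = x := h.localInverse_left_inv h.localInverse_mem_target
  have h1 : ContMDiffAt 𝓘(ℝ, P × ℝ) 𝓘(ℝ, P × ℝ) ∞ h.localInverse (G.par i x) :=
    h.localInverse_contMDiffAt
  -- the map `(s, q) ↦ shift s (local inverse of q)`
  have h3 : ContMDiffAt (𝓘(ℝ, ℝ).prod 𝓘(ℝ, P × ℝ)) (𝓘(ℝ, ℝ).prod 𝓘(ℝ, P × ℝ)) ∞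
      (fun p : ℝ × G.Q => (p.1, h.localInverse p.2)) (s, G.par i x) := by
    refine ContMDiffAt.prodMk contMDiffAt_fst ?_
    exact ContMDiffAt.comp (s, G.par i x) h1 contMDiffAt_snd
  have h4 : ContMDiffAt (𝓘(ℝ, ℝ).prod 𝓘(ℝ, P × ℝ)) 𝓘(ℝ, P × ℝ) ∞
      (fun p : ℝ × (P × ℝ) => shift p.1 p.2) (s, h.localInverse (G.par i x)) := by
    exact contMDiff_shift.contMDiffAt
  have h5 : ContMDiffAt (𝓘(ℝ, ℝ).prod 𝓘(ℝ, P × ℝ)) 𝓘(ℝ, P × ℝ) ∞
      (fun p : ℝ × G.Q => shift p.1 (h.localInverse p.2)) (s, G.par i x) :=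
    ContMDiffAt.comp (s, G.par i x) h4 h3
  have h6 : ContMDiffAt (𝓘(ℝ, ℝ).prod 𝓘(ℝ, P × ℝ)) 𝓘(ℝ, P × ℝ) ∞
      (fun p : ℝ × G.Q => G.par i (shift p.1 (h.localInverse p.2))) (s, G.par i x) := by
    refine ContMDiffAt.comp (s, G.par i x) (g := G.par i) ?_ h5
    refine G.contMDiffAt_par ?_
    rw [h2]
    exact hG.mem s hx
  refine h6.congr_of_eventuallyEq ?_
  have h7 : ∀ᶠ q in 𝓝 (G.par i x), h.localInverse q ∈ G.D i ∧
      G.par i (h.localInverse q) = q := by
    have h8 : ∀ᶠ q in 𝓝 (G.par i x), h.localInverse q ∈ G.D i := by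
      refine h1.continuousAt.eventually ?_
      rw [h2]
      exact (G.isOpen i).mem_nhds hx
    filter_upwards [h8, h.localInverse_eventuallyEq_right] with q hq hq'
    exact ⟨hq, hq'⟩
  have h9 : ∀ᶠ p : ℝ × G.Q in 𝓝 (s, G.par i x), h.localInverse p.2 ∈ G.D i ∧
      G.par i (h.localInverse p.2) = p.2 :=
    (continuous_snd.tendsto (s, G.par i x)).eventually h7
  filter_upwards [h9] with p hp
  rw [← hG.flow_par _ hp.1, hp.2]

theorem Glue.ShiftInv.contMDiff_flow_right (s : ℝ) :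
    ContMDiff 𝓘(ℝ, P × ℝ) 𝓘(ℝ, P × ℝ) ∞ (hG.flow s) :=
  hG.contMDiff_flow.comp (contMDiff_const.prodMk contMDiff_id)

theorem Glue.ShiftInv.continuous_flow : Continuous (fun p : ℝ × G.Q => hG.flow p.1 p.2) :=
  hG.contMDiff_flow.continuous

/-- the derivative of the flow in the parametrizations -/
theorem Glue.ShiftInv.mfderiv_flow (s : ℝ) {i : ι} {x : P × ℝ} (hx : x ∈ G.D i) (v : P × ℝ) :
    (mfderiv 𝓘(ℝ, P × ℝ) 𝓘(ℝ, P × ℝ) (hG.flow s) (G.par i x) (G.dpar i x v) : P × ℝ) =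
      (G.dpar i (shift s x) v : P × ℝ) := by
  have h1 : (hG.flow s) ∘ (G.par i) =ᶠ[𝓝 x] (G.par i) ∘ (shift s) := by
    filter_upwards [(G.isOpen i).mem_nhds hx] with z hz
    exact hG.flow_par s hz
  have h2 := h1.mfderiv_eq (I := 𝓘(ℝ, P × ℝ)) (I' := 𝓘(ℝ, P × ℝ))
  have h3 : mfderiv 𝓘(ℝ, P × ℝ) 𝓘(ℝ, P × ℝ) ((hG.flow s) ∘ (G.par i)) x =
      (mfderiv 𝓘(ℝ, P × ℝ) 𝓘(ℝ, P × ℝ) (hG.flow s) (G.par i x)).comp
        (mfderiv 𝓘(ℝ, P × ℝ) 𝓘(ℝ, P × ℝ) (G.par i) x) :=
    mfderiv_comp x ((hG.contMDiff_flow_right s).mdifferentiableAt (by simp))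
      (G.mdifferentiableAt_par hx)
  have h4 : mfderiv 𝓘(ℝ, P × ℝ) 𝓘(ℝ, P × ℝ) ((G.par i) ∘ (shift s)) x =
      (mfderiv 𝓘(ℝ, P × ℝ) 𝓘(ℝ, P × ℝ) (G.par i) (shift s x)).comp
        (mfderiv 𝓘(ℝ, P × ℝ) 𝓘(ℝ, P × ℝ) (shift s) x) :=
    mfderiv_comp x (G.mdifferentiableAt_par (hG.mem s hx))
      (hasFDerivAt_shift s x).differentiableAt.mdifferentiableAt
  have h5 : mfderiv 𝓘(ℝ, P × ℝ) 𝓘(ℝ, P × ℝ) (shift s) x = ContinuousLinearMap.id ℝ (P × ℝ) := by
    rw [mfderiv_eq_fderiv]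
    exact (hasFDerivAt_shift s x).fderiv
  have h6 := congrArg (fun L : P × ℝ →L[ℝ] P × ℝ => L v) (h3.symm.trans (h2.trans h4))
  rw [h5] at h6
  exact h6

/-- the derivative of an orbit -/
theorem Glue.ShiftInv.hasMFDerivAt_orbit (s : ℝ) {i : ι} {x : P × ℝ} (hx : x ∈ G.D i) :
    (mfderiv 𝓘(ℝ, ℝ) 𝓘(ℝ, P × ℝ) (fun t => hG.flow t (G.par i x)) s (1 : ℝ) : P × ℝ) =
      (G.dpar i (shift s x) (0, 1) : P × ℝ) := by
  have h1 : (fun t => hG.flow t (G.par i x)) = (G.par i) ∘ (fun t : ℝ => shift t x) := by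
    funext t
    exact hG.flow_par t hx
  have h5 : HasFDerivAt (fun t : ℝ => shift t x)
      (ContinuousLinearMap.toSpanSingleton ℝ ((0 : P), (1 : ℝ))) s := by
    have h6 : HasDerivAt (fun t : ℝ => (x.1, x.2 + t)) ((0 : P), (1 : ℝ)) s := by
      have h7 : HasDerivAt (fun t : ℝ => x.2 + t) (1 : ℝ) s := by
        simpa using (hasDerivAt_id s).const_add x.2
      exact (hasDerivAt_const s x.1).prodMk h7
    exact h6.hasFDerivAt
  have h4 : mfderiv 𝓘(ℝ, ℝ) 𝓘(ℝ, P × ℝ) ((G.par i) ∘ (fun t : ℝ => shift t x)) s =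
      (mfderiv 𝓘(ℝ, P × ℝ) 𝓘(ℝ, P × ℝ) (G.par i) (shift s x)).comp
        (mfderiv 𝓘(ℝ, ℝ) 𝓘(ℝ, P × ℝ) (fun t : ℝ => shift t x) s) :=
    mfderiv_comp s (G.mdifferentiableAt_par (hG.mem s hx)) h5.differentiableAt.mdifferentiableAt
  have h7 : mfderiv 𝓘(ℝ, ℝ) 𝓘(ℝ, P × ℝ) (fun t : ℝ => shift t x) s =
      ContinuousLinearMap.toSpanSingleton ℝ ((0 : P), (1 : ℝ)) := by
    rw [mfderiv_eq_fderiv]
    exact h5.fderiv
  rw [h1, h4, h7]
  show (mfderiv 𝓘(ℝ, P × ℝ) 𝓘(ℝ, P × ℝ) (G.par i) (shift s x) : P × ℝ → P × ℝ)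
    (ContinuousLinearMap.toSpanSingleton ℝ ((0 : P), (1 : ℝ)) (1 : ℝ)) = _
  rw [ContinuousLinearMap.toSpanSingleton_apply, one_smul]
  rfl

end Top

end MP0d206b.Et

end

/-! ### from Act.lean -/

section

/-!
# Etale quotients: the action of a group on an etale quotient and the covering map
-/

set_option autoImplicit false
set_option linter.unusedSectionVars false

open scoped Manifold ContDiff Topology

namespace MP0d206b.Et

variable {ι : Type} {E : Type} [NormedAddCommGroup E] [NormedSpace ℝ E]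

/-- an action of the group `Γ` by partial diffeomorphisms on a gluing datum -/
structure Act (G : Glue ι E) (Γ : Type) [Group Γ] where
  /-- the action on the indices -/
  ind : Γ → ι → ι
  /-- the action on the points -/
  map : Γ → ι → E → E
  smooth : ∀ (g : Γ) {i : ι} {x : E}, x ∈ G.D i → ContDiffAt ℝ ∞ (map g i) x
  one : ∀ {i : ι} {x : E}, x ∈ G.D i → G.R (ind 1 i) (map 1 i x) i x
  mul : ∀ (g h : Γ) {i : ι} {x : E}, x ∈ G.D i →
    G.R (ind (g * h) i) (map (g * h) i x) (ind g (ind h i)) (map g (ind h i) (map h i x))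
  rel : ∀ (g : Γ) {i : ι} {x : E} {j : ι} {y : E}, G.R i x j y →
    G.R (ind g i) (map g i x) (ind g j) (map g j y)
  pd : ∀ {i : ι} {x : E} {j : ι} {y : E}, x ∈ G.D i → y ∈ G.D j →
    ∃ V ∈ 𝓝 x, ∃ W ∈ 𝓝 y, ∃ g0 : Γ, ∀ x' ∈ V, ∀ y' ∈ W, ∀ g : Γ,
      G.R (ind g i) (map g i x') j y' → g = g0

variable {G : Glue ι E} {Γ : Type} [Group Γ] (A : Act G Γ)

theorem Act.mem (g : Γ) {i : ι} {x : E} (hx : x ∈ G.D i) : A.map g i x ∈ G.D (A.ind g i) :=
  G.memL (A.rel g (G.refl hx))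

/-- the action is free -/
theorem Act.free {g : Γ} {i : ι} {x : E} (hx : x ∈ G.D i)
    (h : G.R (A.ind g i) (A.map g i x) i x) : g = 1 := by
  obtain ⟨V, hV, W, hW, g0, hg0⟩ := A.pd hx hx
  rw [hg0 x (mem_of_mem_nhds hV) x (mem_of_mem_nhds hW) g h,
    ← hg0 x (mem_of_mem_nhds hV) x (mem_of_mem_nhds hW) 1 (A.one hx)]

/-- the quotient of the gluing datum by the group -/
def Act.quot : Glue ι E where
  D := G.D
  R := fun i x j y => x ∈ G.D i ∧ ∃ g : Γ, G.R (A.ind g i) (A.map g i x) j y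
  isOpen := G.isOpen
  memL := fun h => h.1
  refl := fun h => ⟨h, 1, A.one h⟩
  symm := by
    rintro i x j y ⟨hx, g, hg⟩
    refine ⟨G.memR hg, g⁻¹, ?_⟩
    have h1 := A.rel g⁻¹ (G.symm hg)
    have h2 := A.mul g⁻¹ g hx
    rw [inv_mul_cancel] at h2
    exact G.trans h1 (G.trans (G.symm h2) (A.one hx))
  trans := by
    rintro i x j y k z ⟨hx, g, hg⟩ ⟨hy, h, hh⟩
    exact ⟨hx, h * g, G.trans (A.mul h g hx) (G.trans (A.rel h hg) hh)⟩
  loc := by
    rintro i x j y ⟨hx, g, hg⟩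
    obtain ⟨f, hf, hfx, hloc⟩ := G.loc hg
    refine ⟨fun z => f (A.map g i z), ?_, hfx, ?_⟩
    · exact ContDiffAt.comp x hf (A.smooth g hx)
    · have h1 := (A.smooth g hx).continuousAt.eventually hloc
      filter_upwards [h1, (G.isOpen i).mem_nhds hx] with z hz hz'
      exact ⟨hz', g, hz⟩
  disc := by
    intro i x hx
    obtain ⟨V, hV, W, hW, g0, hg0⟩ := A.pd hx hx
    obtain ⟨W', hW', hinj⟩ := G.disc hx
    have h1 : (1 : Γ) = g0 := hg0 x (mem_of_mem_nhds hV) x (mem_of_mem_nhds hW) 1 (A.one hx)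
    refine ⟨V ∩ W ∩ W', Filter.inter_mem (Filter.inter_mem hV hW) hW', ?_⟩
    rintro z ⟨⟨hz1, hz2⟩, hz3⟩ w ⟨⟨hw1, hw2⟩, hw3⟩ ⟨hzD, g, hg⟩
    have h2 : g = g0 := hg0 z hz1 w hw2 g hg
    rw [h2, ← h1] at hg
    exact hinj z hz3 w hw3 (G.trans (G.symm (A.one hzD)) hg)

/-- the transformation of the quotient given by a group element -/
def Act.tr (g : Γ) : G.Q → G.Q :=
  Quotient.map (sa := G.setoid) (sb := G.setoid)
    (fun p => ⟨(A.ind g p.1.1, A.map g p.1.1 p.1.2), A.mem g p.2⟩) (fun _ _ h => A.rel g h)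

/-- the action on the quotient -/
@[reducible] def Act.mulAction : MulAction Γ G.Q where
  smul g := A.tr g
  one_smul := by
    intro q
    obtain ⟨p, rfl⟩ := Quotient.exists_rep q
    exact Quotient.sound (A.one p.2)
  mul_smul := by
    intro g h q
    obtain ⟨p, rfl⟩ := Quotient.exists_rep q
    exact Quotient.sound (A.mul g h p.2)

theorem Act.tr_par [Nonempty G.Q] (g : Γ) {i : ι} {x : E} (hx : x ∈ G.D i) :
    A.tr g (G.par i x) = G.par (A.ind g i) (A.map g i x) := by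
  rw [G.par_of_mem hx, G.par_of_mem (A.mem g hx)]
  rfl

/-- the projection of the quotient `G.Q` to the quotient by the group -/
def Act.cov : G.Q → A.quot.Q :=
  Quotient.map (sa := G.setoid) (sb := A.quot.setoid) id
    (fun p _ h => ⟨p.2, 1, G.trans (A.one p.2) h⟩)

theorem Act.cov_surjective : Function.Surjective A.cov := by
  intro q
  obtain ⟨p, rfl⟩ := Quotient.exists_rep q
  exact ⟨Quotient.mk _ p, rfl⟩

theorem Act.cov_eq_iff {a b : G.Q} : A.cov a = A.cov b ↔ ∃ g : Γ, A.tr g a = b := by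
  obtain ⟨p, rfl⟩ := Quotient.exists_rep a
  obtain ⟨q, rfl⟩ := Quotient.exists_rep b
  constructor
  · intro h
    obtain ⟨-, g, hg⟩ := Quotient.exact (s := A.quot.setoid) h
    exact ⟨g, Quotient.sound hg⟩
  · rintro ⟨g, hg⟩
    exact Quotient.sound (s := A.quot.setoid) ⟨p.2, g, Quotient.exact (s := G.setoid) hg⟩

instance Act.nonempty_quot [h : Nonempty G.Q] : Nonempty A.quot.Q := h.map A.cov

theorem Act.cov_par [Nonempty G.Q] {i : ι} {x : E} (hx : x ∈ G.D i) :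
    A.cov (G.par i x) = A.quot.par i x := by
  rw [G.par_of_mem hx, A.quot.par_of_mem (i := i) (x := x) hx]
  rfl

section Top

variable [TopologicalSpace ι] [DiscreteTopology ι]

theorem Act.continuous_tr (g : Γ) : Continuous (A.tr g) := by
  rcases isEmpty_or_nonempty G.Q with h | h
  · exact continuous_of_const fun x => h.elim x
  rw [continuous_iff_continuousAt]
  intro q
  obtain ⟨i, x, hx, rfl⟩ := G.exists_par q
  have h1 : ContinuousAt (fun z => A.tr g (G.par i z)) x := by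
    have h2 : ContinuousAt (fun z => G.par (A.ind g i) (A.map g i z)) x :=
      ContinuousAt.comp (G.continuousAt_par (A.mem g hx)) (A.smooth g hx).continuousAt
    refine h2.congr ?_
    filter_upwards [(G.isOpen i).mem_nhds hx] with z hz
    exact (A.tr_par g hz).symm
  obtain ⟨e, hxe, heD, he⟩ := G.exists_isPar hx
  have h3 : ContinuousAt (fun q => A.tr g (G.par i (e.symm q))) (e x) := by
    have h4 : ContinuousAt e.symm (e x) := e.continuousAt_symm (e.map_source hxe)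
    have h5 : e.symm (e x) = x := e.left_inv hxe
    refine ContinuousAt.comp (f := e.symm) (g := fun z => A.tr g (G.par i z)) ?_ h4
    rw [h5]
    exact h1
  rw [← he x]
  refine h3.congr ?_
  filter_upwards [e.open_target.mem_nhds (e.map_source hxe)] with q hq
  rw [← he, e.right_inv hq]

theorem Act.isOpenQuotientMap_cov : IsOpenQuotientMap A.cov :=
  (IsOpenQuotientMap.of_comp_iff (g := A.cov) G.isOpenQuotientMap_proj).1
    A.quot.isOpenQuotientMap_proj

/-- images of neighbourhoods are neighbourhoods -/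
theorem Glue.image_par_mem_nhds [Nonempty G.Q] {i : ι} {x : E} (hx : x ∈ G.D i) {V : Set E}
    (hV : V ∈ 𝓝 x) : G.par i '' (V ∩ G.D i) ∈ 𝓝 (G.par i x) := by
  obtain ⟨V', hV'V, hV'o, hxV'⟩ := mem_nhds_iff.1 (Filter.inter_mem hV ((G.isOpen i).mem_nhds hx))
  exact Filter.mem_of_superset
    ((G.isOpen_image_par i hV'o fun z hz => (hV'V hz).2).mem_nhds ⟨x, hxV', rfl⟩)
    (Set.image_mono hV'V)

/-- the projection is a covering map with group `Γ` -/
theorem Act.isQuotientCoveringMap_cov [Nonempty G.Q] :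
    @IsQuotientCoveringMap G.Q A.quot.Q _ _ A.cov Γ _ A.mulAction := by
  letI := A.mulAction
  refine (isQuotientCoveringMap_iff _ _).2 ⟨A.isOpenQuotientMap_cov.isQuotientMap,
    ⟨fun g => A.continuous_tr g⟩, ?_, ?_⟩
  · intro a b
    rw [eq_comm, A.cov_eq_iff]
    rfl
  · intro q
    obtain ⟨i, x, hx, rfl⟩ := G.exists_par q
    obtain ⟨V, hV, W, hW, g0, hg0⟩ := A.pd hx hx
    have h1 : (1 : Γ) = g0 := hg0 x (mem_of_mem_nhds hV) x (mem_of_mem_nhds hW) 1 (A.one hx)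
    refine ⟨_, G.image_par_mem_nhds hx (Filter.inter_mem hV hW), ?_⟩
    rintro g ⟨_, ⟨_, ⟨z, ⟨⟨hz1, hz2⟩, hz3⟩, rfl⟩, rfl⟩, ⟨w, ⟨⟨hw1, hw2⟩, hw3⟩, hw⟩⟩
    have h2 : A.tr g (G.par i z) = G.par i w := hw.symm
    rw [A.tr_par g hz3, G.par_eq_iff (A.mem g hz3) hw3] at h2
    rw [h1]
    exact hg0 z hz1 w hw2 g h2

theorem Act.isCoveringMap_cov [Nonempty G.Q] : IsCoveringMap A.cov :=
  let _ := A.mulAction
  A.isQuotientCoveringMap_cov.isCoveringMap

end Top

section Flow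

variable {P : Type} [NormedAddCommGroup P] [NormedSpace ℝ P] {G : Glue ι (P × ℝ)} (A : Act G Γ)

/-- the group commutes with the shift -/
def Act.ShiftInv : Prop :=
  ∀ (s : ℝ) (g : Γ) {i : ι} {x : P × ℝ}, x ∈ G.D i →
    G.R (A.ind g i) (A.map g i (shift s x)) (A.ind g i) (shift s (A.map g i x))

theorem Act.ShiftInv.quot {A : Act G Γ} (hG : G.ShiftInv) (hA : A.ShiftInv) :
    A.quot.ShiftInv := by
  rintro s i x j y ⟨hx, g, hg⟩
  exact ⟨hG.mem s hx, g, G.trans (hA s g hx) (hG s hg)⟩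

theorem Act.cov_flow {A : Act G Γ} (hG : G.ShiftInv) (hQ : A.quot.ShiftInv)
    (s : ℝ) (q : G.Q) : A.cov (hG.flow s q) = hQ.flow s (A.cov q) := by
  obtain ⟨p, rfl⟩ := Quotient.exists_rep q
  rfl

end Flow

end MP0d206b.Et

end
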